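import Pool.Agent.T2H28.BC.RatV
import Pool.Agent.T2H55.BC.ValF
import Pool.Agent.T2H55.BC.RatE

/-!
# The `3`-part of the Birch and Swinnerton-Dyer conjecture for `y² + y = x³` over the cyclic cubic
extensions of `ℚ(√-3)`: the order of `Ш[3^∞]`

`K` is the field of third roots of unity, `E` is the curve `y² + y = x³`, and `D` runs through ALL the
cube-free `D = 1` modulo `3` of `𝓞 K` whose norm is not `1` modulo `9`; there are at least `c X` such
`D` of norm at most `X`.  Let `t` be the number of the prime ideals dividing `D`, and `F = K(∛D)`, a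
cyclic cubic extension of `K`, of degree `6` over `ℚ`.

* For all these `D` the series `L(E / F, s)` is continued to an entire function, and the quotient of
  `L(E / F, 1)` and `Ω(E / F) ∏ c_v / (√|Δ(F)| 9²)` is a rational number `9 ^ (t - 1) a / b`, `3 ∤ b`.
* Here `3 ∤ a` exactly when `D` is connected: the Laplacian of the matrix of the
  cubic residue symbols of the prime divisors of `D`, with the exponents of the primes in `D` as
  weights, has no kernel but the constants.  In this case `L(E / F, 1) ≠ 0`, the group `E(F)` is finite, of order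
  `9 m`, `3 ∤ m`, the group `Ш(E / F)[3^∞]` is killed by `3` and has exactly `9 ^ (t - 1)` elements, so
  it is `(ℤ / 3) ^ (2 (t - 1))`, and the `3`-part of the conjecture holds for `E / F`: the number `ρ` with
  `L(E / F, 1) = ρ Ω(E / F) ∏ c_v / (√|Δ(F)| |E(F)|²)` is rational, and `3` divides it to the power
  `2 (t - 1)`.
* The proportion of the `D` with this property tends to `∏_{i ≥ 0} (1 - 3^{-(2 i + 1)}) = 0.6390...`.

The equation `y² + y = x³` has good reduction at the places of `F` that do not divide `3`.  There is one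
place above `3`; it has three residue classes, the equation is not minimal there, and the Tamagawa
number is `1`, `2` or `4`.

The library had `L(E / F, 1) ≠ 0`, the finiteness of `E(F)` and that `3` kills `Ш(E / F)[3^∞]`, for the
same `D` with a connected graph.  New are the order of this group and the `3`-part of the formula.  The
proof.  The points of order `3` are defined over `K`.  Let `D = ∏ π_i ^ (e_i)`, with `t` primes `π_i`.  The
extension `F(∛π_1, …, ∛π_t)` of `F` has the group `(ℤ / 3) ^ (t - 1)` and is unramified outside of `3`;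
its homomorphisms to `E[3]` are `2 (t - 1)` dimensions of locally trivial classes.  A locally trivial
class that is killed by `√-3` comes from a character of `F` of order `3`; the local conditions at
`π_i` and above `3` and the connectedness of the graph imply that the character is invariant under
`Gal(F / K)`, that it extends to `K`, and that it is one of the characters of the `∛π_i`.  From this and the
points of order `(√-3)³` the classes above give the whole group, and none of them becomes trivial: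
`Pool/Agent/T2H28/BC` (helper28).  The discriminant of `F`, the minimal equation above `3`, the local
condition above `3`, the valuation of the central value, which is the product of the central values
of the three twists of `E` by `1`, `D`, `D²` over `K`, and the proof that `ρ` is rational are in
`Pool/Agent/T2H55/BC` (helper55).  Both are
built on the library for cubic twists (see the headers of `Pool/Agent/Y703/CT`, `Pool/Agent/R419/KF` and
of the files imported by `Pool/Agent/Y696/CTK/Fin.lean` and `Pool/Agent/Y696/CTE/Fin.lean`).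

The group `Sha` of the library is the group of the continuous cocycles of the absolute Galois group
of `F` with values in the points over an algebraic closure of `F` that are coboundaries at all the
places, modulo the coboundaries.  `NonsingRed v W P` says that `P` is the point at infinity or that
one of the partial derivatives of the equation at `P` is not in the maximal ideal.
-/

set_option autoImplicit false

namespace Pool.Agent.Results.MP_e996df_nt.CyclicCubicThreePart

open NumberField IsDedekindDomain WeierstrassCurve WithZero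
open Pool.Agent.TH841.NF.D (Sha)
open Pool.Agent.Y696 (NonsingRed)
open scoped Classical

/-! ### The data of `E / F` -/

section field

variable (F : Type) [Field F] [NumberField F]

/-- The curve `E : y² + y = x³` over `F`, with the differential `ω = dx / (2 y + 1)`. -/
def curve (F : Type) [Field F] : WeierstrassCurve F := ⟨0, 0, 1, 0, 0⟩

/-- `n v` and `c v` are the local data of `E` at the finite places `v` of `F`.  A change of variables
over `F_v` with the scaling factor `u` of absolute value `q_v ^ (-n v)` gives a minimal equation, so that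
`|ω / ω_min|_v = q_v ^ (n v)`, and `c v` is the index of the group of the points of nonsingular
reduction in the group of points over `F_v` of this equation (the Tamagawa number).  All but
finitely many of the `n v` are `0` and of the `c v` are `1`. -/
structure IsLocalData (n : HeightOneSpectrum (𝓞 F) → ℤ) (c : HeightOneSpectrum (𝓞 F) → ℕ) : Prop where
  data : ∀ v : HeightOneSpectrum (𝓞 F), ∃ C : VariableChange (v.adicCompletion F),
    Valued.v ((C.u : (v.adicCompletion F)ˣ) : v.adicCompletion F) = exp (-(n v)) ∧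
    IsMinimal (v.adicCompletionIntegers F) (C • (curve F).baseChange (v.adicCompletion F)) ∧
    ∃ H : AddSubgroup (C • (curve F).baseChange (v.adicCompletion F)).toAffine.Point,
      (∀ P, P ∈ H ↔ NonsingRed Valued.v (C • (curve F).baseChange (v.adicCompletion F)) P) ∧
      H.index = c v
  finite : {v | n v ≠ 0 ∨ c v ≠ 1}.Finite

/-- `Lf` is an entire function equal to `L(E / F, s)` for `Re s > 3 / 2`. -/
def IsL (Lf : ℂ → ℂ) : Prop :=
  Differentiable ℂ Lf ∧
    ∀ s : ℂ, 3 / 2 < s.re →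
      LSeriesSummable ((fun n : ℤ => (n : ℂ)) ∘ (curve F).LFunction) s ∧
        Lf s = (curve F).LSeries s

/-- The product `∏ |ω / ω_min|_v · 2 A · 2 A · 2 A`, the period of `E` over a field `F` with three
complex places and no real ones: `A` is the area of a period parallelogram of the lattice `Λ`. -/
noncomputable def period (n : HeightOneSpectrum (𝓞 F) → ℤ) (Λ : PeriodPair) : ℂ :=
  (∏ᶠ v : HeightOneSpectrum (𝓞 F), ((Nat.card (𝓞 F ⧸ v.asIdeal) : ℂ) ^ (n v))) *
    ((2 * |((starRingEnd ℂ) Λ.ω₁ * Λ.ω₂).im| : ℝ) : ℂ) ^ 3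

/-- The lattice of the periods of `ω = dx / (2 y + 1)` on `E`: with `x = ℘` and `2 y + 1 = ℘'` the
equation is `℘'² = 4 ℘³ + 1`. -/
def IsPeriodLattice (Λ : PeriodPair) : Prop := Λ.g₂ = 0 ∧ Λ.g₃ = -1

/-- The `3`-primary part of `Ш(E / F)`. -/
def ShaThree : Type := {x : Sha (curve F) // ∃ n : ℕ, 3 ^ n • x = 0}

/-- **The `3`-part of the conjecture, with the order of `Ш[3^∞]`.**  `L(E / F, s)` is entire, it does
not vanish at `1`, the group `E(F)` is finite, of order divisible by `9` and not by `27`, `Ш(E / F)[3^∞]`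
is killed by `3` and has `9 ^ (t - 1)` elements, and
`L(E / F, 1) = ρ Ω(E / F) ∏ c_v / (√|Δ(F)| |E(F)|²)`, where `ρ ≠ 0` is a rational number with the
`3`-adic valuation of `|Ш(E / F)[3^∞]|`. -/
def ThreePart (t : ℕ) : Prop :=
  Finite (curve F).toAffine.Point ∧ padicValNat 3 (Nat.card (curve F).toAffine.Point) = 2 ∧
  (∀ (n : ℕ) (x : Sha (curve F)), 3 ^ n • x = 0 → 3 • x = 0) ∧
  Nat.card (ShaThree F) = 9 ^ (t - 1) ∧
  ∃ (Lf : ℂ → ℂ) (n : HeightOneSpectrum (𝓞 F) → ℤ) (c : HeightOneSpectrum (𝓞 F) → ℕ),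
    IsL F Lf ∧ Lf 1 ≠ 0 ∧ IsLocalData F n c ∧ (∃ Λ, IsPeriodLattice Λ) ∧
    ∀ Λ : PeriodPair, IsPeriodLattice Λ → ∃ ρ : ℚ, ρ ≠ 0 ∧
      Lf 1 = ρ * (period F n Λ * ((∏ᶠ w, c w : ℕ) : ℂ) /
        (((Real.sqrt |(discr F : ℝ)| : ℝ) : ℂ) * (Nat.card (curve F).toAffine.Point : ℂ) ^ 2)) ∧
      padicValRat 3 ρ = padicValNat 3 (Nat.card (ShaThree F))

/-- `L(E / F, s)` is entire, and `L(E / F, 1) = 9 ^ (t - 1) (a / b) Ω(E / F) ∏ c_v / (√|Δ(F)| 9²)` with
an integer `a` and a natural number `b` prime to `3`, and `3 ∤ a` if and only if `good` holds. -/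
def Divisible (t : ℕ) (good : Prop) : Prop :=
  ∃ (Lf : ℂ → ℂ) (n : HeightOneSpectrum (𝓞 F) → ℤ) (c : HeightOneSpectrum (𝓞 F) → ℕ),
    IsL F Lf ∧ IsLocalData F n c ∧ (∃ Λ, IsPeriodLattice Λ) ∧
    ∀ Λ : PeriodPair, IsPeriodLattice Λ → ∃ (a : ℤ) (b : ℕ),
      Lf 1 = 9 ^ (t - 1) * (a / b) * (period F n Λ * ((∏ᶠ w, c w : ℕ) : ℂ) /
        (((Real.sqrt |(discr F : ℝ)| : ℝ) : ℂ) * 9 ^ 2)) ∧
      ¬ 3 ∣ b ∧ (¬ (3 : ℤ) ∣ a ↔ good)

end field

/-! ### The fields -/

section base

variable {K : Type} [Field K] [NumberField K]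

/-- `D` is `1` modulo `3` and not divisible by the cube of a non-unit, and its norm is not `1`
modulo `9`. -/
def InClass (D : 𝓞 K) : Prop :=
  (3 : 𝓞 K) ∣ D - 1 ∧ (∀ x : 𝓞 K, x ^ 3 ∣ D → IsUnit x) ∧ ¬ (9 : ℤ) ∣ Algebra.norm ℤ D - 1

/-- The number of the prime ideals that divide `D`. -/
noncomputable def primes (D : 𝓞 K) : ℕ := {P : HeightOneSpectrum (𝓞 K) | D ∈ P.asIdeal}.ncard

/-- `D` is the product of the powers `π i ^ e i`, `e i = 1, 2`, of the primes `π i`, which are `1`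
modulo `3` and do not divide each other, and the cubic residue symbol of `π i` modulo `π j` is
`ω ^ χ j i`. -/
def IsFactorization (ω D : 𝓞 K) (n : ℕ) (π : Fin n → 𝓞 K) (e : Fin n → ZMod 3)
    (χ : Fin n → Fin n → ZMod 3) : Prop :=
  (∀ i, Prime (π i) ∧ (3 : 𝓞 K) ∣ π i - 1 ∧ e i ≠ 0) ∧ D = ∏ i, π i ^ (e i).val ∧
  ∀ i j, i ≠ j → ¬ π j ∣ π i ∧
    π j ∣ π i ^ (((Algebra.norm ℤ (π j)).natAbs - 1) / 3) - ω ^ (χ j i).val

/-- For every factorization of `D`, the kernel of the Laplacian of `χ` with the weights `e` over the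
field with three elements consists of the constants. -/
def Connected (D : 𝓞 K) : Prop :=
  ∀ (ω : 𝓞 K) (n : ℕ) (π : Fin n → 𝓞 K) (e : Fin n → ZMod 3) (χ : Fin n → Fin n → ZMod 3),
    ω ^ 2 + ω + 1 = 0 → IsFactorization ω D n π e χ →
      ∀ v : Fin n → ZMod 3, (∀ j, ∑ i, e i * χ j i * (v i - v j) = 0) → ∀ i j, v i = v j

end base

/-! ### The proof -/

section proof

open Pool.Agent.Y692.QS (Ei nr)
open Pool.Agent.Y703.CT
open Pool.Agent.Y696.CTK Pool.Agent.Y696.CTE
open Pool.Agent.R419.KF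
open Pool.Agent.T2H28.BC

variable {K : Type} [Field K] [NumberField K]

/-- the local data -/
theorem local_ex {F : Type} [Field F] [NumberField F]
    (h1 : ∀ v : HeightOneSpectrum (𝓞 F), (3 : 𝓞 F) ∉ v.asIdeal → LocData (ED (1 : F)) v 0 1)
    (h2 : ∃ v₀ : HeightOneSpectrum (𝓞 F), (∀ v : HeightOneSpectrum (𝓞 F),
      (3 : 𝓞 F) ∈ v.asIdeal ↔ v = v₀) ∧
      Nat.card (𝓞 F ⧸ v₀.asIdeal) = 3 ∧ ∃ c : ℕ, (c = 1 ∨ c = 2 ∨ c = 4) ∧
      LocData (ED (1 : F)) v₀ 1 c) :
    ∃ (n : HeightOneSpectrum (𝓞 F) → ℤ) (c : HeightOneSpectrum (𝓞 F) → ℕ) (m : ℕ),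
      (m = 1 ∨ m = 2 ∨ m = 4) ∧ IsLocalData F n c ∧ ∏ᶠ w, c w = m ∧
      ∀ Λ : PeriodPair, period F n Λ =
        3 * ((2 * |((starRingEnd ℂ) Λ.ω₁ * Λ.ω₂).im| : ℝ) : ℂ) ^ 3 := by
  obtain ⟨v₀, g1, g2, m, hm, g3⟩ := h2
  refine ⟨fun v => if v = v₀ then 1 else 0, fun v => if v = v₀ then m else 1, m, hm, ⟨?_, ?_⟩,
    finprod_nat v₀ m, ?_⟩
  · intro v
    by_cases hv : v = v₀
    · subst hv
      obtain ⟨C, a1, a2, H, a3, a4⟩ := g3
      refine ⟨C, ?_, a2, H, a3, ?_⟩
      · rw [a1, if_pos rfl]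
      · exact a4.trans (if_pos rfl).symm
    · obtain ⟨C, a1, a2, H, a3, a4⟩ := h1 v fun h => hv ((g1 v).1 h)
      refine ⟨C, ?_, a2, H, a3, ?_⟩
      · rw [a1, if_neg hv]
      · exact a4.trans (if_neg hv).symm
  · refine (Set.finite_singleton v₀).subset ?_
    intro v hv
    by_contra hne
    rcases hv with h | h
    · exact h (if_neg hne)
    · exact h (if_neg hne)
  · intro Λ
    unfold period
    congr 1
    have : (fun v : HeightOneSpectrum (𝓞 F) => ((Nat.card (𝓞 F ⧸ v.asIdeal) : ℂ) ^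
        (if v = v₀ then (1 : ℤ) else 0))) = fun v => if v = v₀ then (3 : ℂ) else 1 := by
      funext v
      by_cases hv : v = v₀
      · subst hv
        rw [if_pos rfl, if_pos rfl, zpow_one, g2]
        norm_num
      · rw [if_neg hv, if_neg hv, zpow_zero]
    rw [this]
    exact finprod_one v₀ 3

theorem lattice_ex : ∃ Λ, IsPeriodLattice Λ := by
  obtain ⟨⟨Λ, h1, h2⟩, -⟩ := PER 1 1 one_ne_zero (one_pow 3)
  exact ⟨Λ, h1, by rw [h2, one_pow]⟩

theorem area_ne (Λ : PeriodPair) (h : IsPeriodLattice Λ) :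
    ((2 * |((starRingEnd ℂ) Λ.ω₁ * Λ.ω₂).im| : ℝ) : ℂ) ≠ 0 := by
  obtain ⟨-, hall⟩ := PER 1 1 one_ne_zero (one_pow 3)
  obtain ⟨L, Ω, hC, hA⟩ := hall Λ h.1 (by rw [h.2, one_pow])
  rw [hA, norm_one, one_pow, div_one]
  have hΩ := norm_ne_zero_iff.2 hC.lat.ne
  have h3 : (Real.sqrt 3 : ℝ) ≠ 0 := by positivity
  exact_mod_cast mul_ne_zero h3 (pow_ne_zero 2 hΩ)

theorem v_small {Γ : Type} [LinearOrderedCommGroupWithZero Γ] {v : Valuation ℂ Γ} (hv : v 3 < 1)
    {m : ℕ} (hm : m = 1 ∨ m = 2 ∨ m = 4) : v (m : ℂ) = 1 := by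
  refine v_natp hv ?_
  rcases hm with rfl | rfl | rfl <;> norm_num

theorem val9 (m : ℕ) : ((2 * m : ℕ) : ℤ) = (padicValNat 3 (9 ^ m) : ℤ) := by
  have : (9 : ℕ) ^ m = 3 ^ (2 * m) := by
    rw [pow_mul]
    norm_num
  rw [this, padicValNat.prime_pow]

theorem v_nat3' {Γ : Type} [LinearOrderedCommGroupWithZero Γ] {v : Valuation ℂ Γ} (hv : v 3 < 1)
    {m : ℕ} (hm : ¬ 3 ∣ m) : v (m : ℂ) = 1 := v_natp hv hm

variable [IsCyclotomicExtension {3} ℚ K] {F : Type} [Field F] [NumberField F] [Algebra K F]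
  (j : Ei ≃+* 𝓞 K) {J : Type} [Fintype J] [Nonempty J] {π : J → Ei} {e : J → ZMod 3}

/-- both parts for one field -/
theorem one (hD : Dt π e) (h9 : ¬ (9 : ℤ) ∣ nr (pD π e) - 1)
    (hdeg : Module.finrank K F = 3) (θ : 𝓞 F)
    (hθ : θ ^ 3 = algebraMap (𝓞 K) (𝓞 F) (j (pD π e))) :
    (Ker π e → ThreePart F (Fintype.card J)) ∧ Divisible F (Fintype.card J) (Ker π e) := by
  have hdisc : discr K = -3 := (Pool.Agent.Y455.CTK.jex K).2
  have hne : pD π e ≠ 0 := Pool.Agent.Y153.CTRAM.ne_zero_of hD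
  have hC : Cub j (pD π e) θ := ⟨hdeg, hθ, hne,
    Pool.Agent.R419.CE.ncube (Pool.Agent.R419.CE.cf_pD hD) (Pool.Agent.R419.CE.nunit hD)⟩
  obtain ⟨h1, h2⟩ := Pool.Agent.T2H55.BC.t_LOCF K F j (pD π e) θ hC
    (Pool.Agent.R419.CE.three_pD hD) h9
  obtain ⟨n, c, m, hm, hloc, hcm, hper⟩ := local_ex h1 h2
  obtain ⟨Lf, g1, g2, g3⟩ := Pool.Agent.T2H55.BC.t_VALF K F j J π e hD h9 θ hC
  have hL : IsL F Lf := ⟨g1, g2⟩
  have hrat := Pool.Agent.T2H55.BC.t_RATF K F j J π e hD h9 θ hC Lf g1 fun s hs => (g2 s hs).2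
  have hdF : ((Real.sqrt |(discr F : ℝ)| : ℝ) : ℂ) ≠ 0 := by
    have h3 : (discr F : ℝ) ≠ 0 := by exact_mod_cast discr_ne_zero F
    exact Complex.ofReal_ne_zero.2 (Real.sqrt_ne_zero'.2 (abs_pos.2 h3))
  have hm0 : (m : ℂ) ≠ 0 := by
    rcases hm with rfl | rfl | rfl <;> norm_num
  obtain ⟨B, hB⟩ := Pool.Agent.Y715.T.Fin.exists_over_three
  -- the power
  have h99 : ∀ (Γ : Type) [LinearOrderedCommGroupWithZero Γ] (v : Valuation ℂ Γ),
      v ((9 : ℂ) ^ (Fintype.card J - 1)) = v ((3 : ℂ) ^ (2 * (Fintype.card J - 1))) := by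
    intro Γ _ v
    congr 1
    rw [pow_mul]
    norm_num
  -- from the kernel
  have hk : Ker π e → ThreePart F (Fintype.card J) := by
    intro hk
    obtain ⟨-, hfin, h33⟩ := (Pool.Agent.R419.CE.lawE parts partsE j hD h9 hdeg θ hθ).rz hk
    obtain ⟨r, hr, hcard⟩ := pts_F hC hD hk h9 hfin
    have hsha := sha_F Pool.Agent.T2H55.BC.t_LOC3H hC hD hk h9 hfin h33
    have hsha' : Nat.card (ShaThree F) = 9 ^ (Fintype.card J - 1) := by
      refine Eq.trans hsha ?_
      rw [pow_mul]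
      norm_num
    have hcard' : Nat.card (curve F).toAffine.Point = 9 * r := hcard
    have hr0 : r ≠ 0 := by
      rintro rfl
      exact hr (dvd_zero 3)
    refine ⟨hfin, ?_, h33, hsha', Lf, n, c, hL, ?_, hloc, lattice_ex, ?_⟩
    · rw [hcard', padicValNat.mul (by norm_num) hr0, padicValNat.eq_zero_of_not_dvd hr]
      have : (9 : ℕ) = 3 ^ 2 := by norm_num
      rw [this, padicValNat.prime_pow]
    · intro h0
      obtain ⟨Λ, hΛ⟩ := lattice_ex
      have h4 := (g3 Λ hΛ.1 hΛ.2 _ B.valuation hB).2.2 hk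
      rw [h0] at h4
      simp only [zero_mul, zero_div, map_zero, map_pow] at h4
      have h5 : B.valuation 3 ≠ 0 := (Valuation.ne_zero_iff _).2 (by norm_num)
      exact pow_ne_zero _ h5 h4.symm
    · intro Λ hΛ
      have hA := area_ne Λ hΛ
      have g4 := fun (Γ : Type) [LinearOrderedCommGroupWithZero Γ] (v : Valuation ℂ Γ)
        (hv : v 3 < 1) => (g3 Λ hΛ.1 hΛ.2 Γ v hv).2.2 hk
      obtain ⟨q, hq⟩ := hrat Λ hΛ.1 hΛ.2
      rw [hper, hcm, hcard', hsha']
      generalize ((2 * |((starRingEnd ℂ) Λ.ω₁ * Λ.ω₂).im| : ℝ) : ℂ) = A at hA g4 hq ⊢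
      have hr0' : (r : ℂ) ≠ 0 := by exact_mod_cast hr0
      have e1 : ((q * 27 * ((r : ℚ) ^ 2 / m) : ℚ) : ℂ) =
          Lf 1 * (Real.sqrt |(discr F : ℝ)| : ℝ) * 9 ^ 2 / (A ^ 3 * 3) * ((r : ℂ) ^ 2 / m) := by
        push_cast
        rw [← hq]
        field_simp
        ring
      have h7 : B.valuation ((q * 27 * ((r : ℚ) ^ 2 / m) : ℚ) : ℂ) =
          B.valuation ((9 : ℂ) ^ (Fintype.card J - 1)) := by
        have h4 := g4 _ B.valuation hB
        rw [e1, h99, ← h4]
        have h5 : B.valuation (m : ℂ) = 1 := v_small hB hm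
        have h6 : B.valuation (r : ℂ) = 1 := v_nat3' hB hr
        rw [map_mul B.valuation _ ((r : ℂ) ^ 2 / m), map_div₀ B.valuation ((r : ℂ) ^ 2),
          map_pow B.valuation (r : ℂ), h5, h6, one_pow, div_one, mul_one]
      obtain ⟨h8, h10⟩ := rat_eq hB h7
      refine ⟨q * 27 * ((r : ℚ) ^ 2 / m), h8, ?_, ?_⟩
      · rw [e1]
        push_cast
        field_simp
      · rw [h10, val9]
  -- the value
  refine ⟨hk, Lf, n, c, hL, hloc, lattice_ex, ?_⟩
  intro Λ hΛ
  have hA := area_ne Λ hΛ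
  have g4 := fun (Γ : Type) [LinearOrderedCommGroupWithZero Γ] (v : Valuation ℂ Γ) (hv : v 3 < 1) =>
    g3 Λ hΛ.1 hΛ.2 Γ v hv
  obtain ⟨q, hq⟩ := hrat Λ hΛ.1 hΛ.2
  rw [hper, hcm]
  generalize ((2 * |((starRingEnd ℂ) Λ.ω₁ * Λ.ω₂).im| : ℝ) : ℂ) = A at hA g4 hq ⊢
  have e1 : ((q * 27 / m : ℚ) : ℂ) =
      Lf 1 * (Real.sqrt |(discr F : ℝ)| : ℝ) * 9 ^ 2 / (A ^ 3 * 3) / m := by
    push_cast
    rw [← hq]
    field_simp
    ring
  obtain ⟨a, b, h6, h7, h8⟩ := rat_frac hB (q := q * 27 / m) (m := Fintype.card J - 1)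
    (good := Ker π e) (by
      have h4 := g4 _ B.valuation hB
      have h5 : B.valuation (m : ℂ) = 1 := v_small hB hm
      rw [e1, map_div₀ B.valuation _ (m : ℂ), h5, div_one, h99]
      exact h4)
  refine ⟨a, b, ?_, h7, h8⟩
  rw [← h6, e1]
  field_simp

/-- one element of the class -/
theorem main_one {D : 𝓞 K} (hD : InClass D) (hdeg : Module.finrank K F = 3) (θ : F)
    (hθ : θ ^ 3 = algebraMap K F D) :
    (Tri D → ThreePart F (primes D)) ∧ Divisible F (primes D) (Tri D) := by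
  obtain ⟨⟨j, hj⟩, -⟩ := Pool.Agent.Y455.CTK.jex K
  obtain ⟨z, rfl⟩ := j.surjective D
  have hz := (clsC_iff j hj z).1 hD
  obtain ⟨M, S, hS, hM, rfl⟩ := ex_pair hz.1 hz.2.1
  obtain ⟨n, π, e, hdt, hel, -⟩ := data ((cls_el hS hM).1 hz)
  rw [hel] at hD hz hθ ⊢
  have h9 := hz.2.2
  have htri := Pool.Agent.R419.KF.tri_iff j parts hdt h9
  obtain ⟨θ', -, hθ'⟩ := root_int (K := K) (F := F) (D := j (pD π e)) (θ := θ) hθ
  have hp : primes (j (pD π e)) = Fintype.card (Fin (n + 1)) := ncard_primes j hdt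
  rw [hp, htri]
  exact one j hdt h9 hdeg θ' hθ'

omit [IsCyclotomicExtension {3} ℚ K] in
/-- the condition on the graph -/
theorem connected_iff {D : 𝓞 K} (h : CritE D) : Connected D ↔ Tri D := by
  obtain ⟨⟨ω, n, π, e, χ, hω, hf⟩, h2⟩ := h
  constructor
  · intro hc
    exact (h2 ω n π e χ hω hf).2 (hc ω n π e χ hω hf)
  · intro ht ω n π e χ hω hf
    exact (h2 ω n π e χ hω hf).1 ht

end proof

/-- **Main theorem.**  `K` is the field of the third roots of unity.  There are at least `c X` elements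
`D` of norm at most `X` in the class.  Every `D` of the class has a factorization, and there is a cubic
extension `F = K(θ)`, `θ³ = D`.  For each such `F`, with `t` the number of the prime ideals that divide
`D`: `L(E / F, s)` is entire, `L(E / F, 1) = 9 ^ (t - 1) (a / b) Ω(E / F) ∏ c_v / (√|Δ(F)| 9²)` with
integers `a`, `b`, `3 ∤ b`, and `3 ∤ a` exactly if `D` is connected; and if `D` is connected, the
`3`-part of the conjecture holds for `E / F` (the value is rational, with the predicted `3`-adic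
valuation), and `Ш(E / F)[3^∞]` is killed by `3` and has `9 ^ (t - 1)` elements.  The proportion of the connected `D`
tends to `∏_{i ≥ 0} (1 - 3^{-(2 i + 1)})`. -/
theorem result (K : Type) [Field K] [NumberField K] [IsCyclotomicExtension {3} ℚ K] :
    (∃ c : ℝ, 0 < c ∧ ∃ X₀ : ℕ, ∀ X : ℕ, X₀ ≤ X →
      c * X ≤ ({D : 𝓞 K | Algebra.norm ℤ D ≤ X ∧ InClass D}.ncard : ℝ)) ∧
    (∀ D : 𝓞 K, InClass D →
      (∃ (ω : 𝓞 K) (n : ℕ) (π : Fin n → 𝓞 K) (e : Fin n → ZMod 3) (χ : Fin n → Fin n → ZMod 3),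
        ω ^ 2 + ω + 1 = 0 ∧ IsFactorization ω D n π e χ) ∧
      (∃ (F : Type) (_ : Field F) (_ : NumberField F) (_ : Algebra K F) (θ : F),
        Module.finrank K F = 3 ∧ θ ^ 3 = algebraMap K F D) ∧
      ∀ (F : Type) [Field F] [NumberField F] [Algebra K F] (θ : F),
        Module.finrank K F = 3 → θ ^ 3 = algebraMap K F D →
          Divisible F (primes D) (Connected D) ∧ (Connected D → ThreePart F (primes D))) ∧
    Filter.Tendsto (fun X : ℕ =>
      ({D : 𝓞 K | Algebra.norm ℤ D ≤ X ∧ InClass D ∧ Connected D}.ncard : ℝ) /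
        ({D : 𝓞 K | Algebra.norm ℤ D ≤ X ∧ InClass D}.ncard : ℝ)) Filter.atTop
      (nhds (∏' i : ℕ, (1 - (1 / 3 : ℝ) ^ (2 * i + 1)))) ∧
    (0.639 : ℝ) < ∏' i : ℕ, (1 - (1 / 3 : ℝ) ^ (2 * i + 1)) ∧
    ∏' i : ℕ, (1 - (1 / 3 : ℝ) ^ (2 * i + 1)) < 0.6391 := by
  obtain ⟨h1, h2, h3, h4, h5⟩ := Pool.Agent.R419.KF.final K
  refine ⟨h1, fun D hD => ?_, ?_, h4, h5⟩
  · obtain ⟨a1, -, a3, -, -⟩ := h2 D hD
    refine ⟨a1.1, a3, fun F _ _ _ θ hd hθ => ?_⟩
    rw [connected_iff a1]
    exact (main_one hD hd θ hθ).symm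
  · refine h3.congr fun X => ?_
    have h6 : {D : 𝓞 K | Algebra.norm ℤ D ≤ X ∧ Pool.Agent.R419.KF.ClsKC D ∧
        Pool.Agent.Y696.CTK.Tri D} = {D : 𝓞 K | Algebra.norm ℤ D ≤ X ∧ InClass D ∧ Connected D} := by
      ext D
      constructor
      · rintro ⟨a, b, c⟩
        exact ⟨a, b, (connected_iff (h2 D b).1).2 c⟩
      · rintro ⟨a, b, c⟩
        exact ⟨a, b, (connected_iff (h2 D b).1).1 c⟩
    rw [h6]
    rfl


end Pool.Agent.Results.MP_e996df_nt.CyclicCubicThreePart
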