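import Pool.Agent.T2H28.BC.RatV
import Pool.Agent.T2H28.BC.RealP
import Pool.Agent.T2H55.BC.ValK
import Pool.Agent.T2H55.BC.RatE
import Pool.Agent.R419.CE.Pure

/-!
# The `3`-part of the Birch and Swinnerton-Dyer conjecture for `y² + y = x³` over the pure cubic
fields: the order of `Ш[3^∞]`

`E` is the curve `y² + y = x³`, and `N` runs through all the cube-free numbers, prime to `3` and not
`±1` modulo `9`, which are divisible by exactly one prime `2` modulo `3` (and by any number of primes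
`1` modulo `3`).  Let `t` be the number of the primes that divide `N`, and `k = ℚ(∛N)`, a cubic field with
one real and one complex place, not Galois over `ℚ`.

* For all these `N` the series `L(E / k, s)` is continued to an entire function, and the quotient of
  `L(E / k, 1)` and `Ω(E / k) ∏ c_v / (√|Δ(k)| 3²)` is a rational number `9 ^ (t - 1) a / b`, `3 ∤ b`.
* Here `3 ∤ a` exactly when `N` has no splitting `d₀ d₁ d₂` (a condition on
  the cubic residue symbols of the primes that divide `N`).  In this case `L(E / k, 1) ≠ 0`, the group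
  `E(k)` is finite, of order `3 m`, `3 ∤ m`, the group `Ш(E / k)[3^∞]` is killed by `3` and has
  exactly `9 ^ (t - 1)` elements, so it is `(ℤ / 3) ^ (2 (t - 1))`, and the `3`-part of the conjecture
  holds for `E / k`: the number `ρ` with `L(E / k, 1) = ρ Ω(E / k) ∏ c_v / (√|Δ(k)| |E(k)|²)` is
  rational, and `3` divides it to the power `2 (t - 1)`.
* The proportion of the `N` without a splitting tends to `∏_{i ≥ 1} (1 - 3^{-i}) = 0.5601...`.

The equation `y² + y = x³` is minimal at all the finite places of `k`, and it has good reduction at those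
that do not divide `3`.  There is one place above `3`, and the Tamagawa number there is `1`, `2` or `4`.

The library had `L(E / k, 1) ≠ 0`, the finiteness of `E(k)` and that `3` kills `Ш(E / k)[3^∞]`, for the
same `N` without a splitting.  New are the order of this group and the `3`-part of the formula.  The
proof.  Let `K = ℚ(√-3)` and `F = K(∛N)`.  The number of the primes of `K` that divide `N` is `2 t - 1`,
and the group `Ш(E / F)[3^∞]` consists of the homomorphisms from the group of the extension of `F` with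
all the cube roots of these primes to `E[3]`, a group of order `3 ^ (4 (t - 1))`.  It is the sum of two
parts of equal order, on which the automorphism of `F / k` acts as `1` and `-1`: the endomorphism
`√-3` anticommutes with it, and its kernel and its image are the same subgroup.  The first part is
`Ш(E / k)[3^∞]`: `Pool/Agent/T2H28/BC` (helper28).  The discriminant of `k`, the minimal equation, the local
condition above `3`, the valuation of the central value and the proof that `ρ` is rational are in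
`Pool/Agent/T2H55/BC` (helper55).  Both are
built on the library for cubic twists (see the headers of `Pool/Agent/Y703/CT`, `Pool/Agent/R419/CF` and
of the files imported by `Pool/Agent/Y696/CTK/Fin.lean`, `Pool/Agent/Y696/CTE/Fin.lean` and
`Pool/Agent/Y696/CTP/Fin0.lean`).

The group `Sha` of the library is the group of the continuous cocycles of the absolute Galois group
of `k` with values in the points over an algebraic closure of `k` that are coboundaries at all the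
places, modulo the coboundaries.  `NonsingRed v W P` says that `P` is the point at infinity or that
one of the partial derivatives of the equation at `P` is not in the maximal ideal.
-/

set_option autoImplicit false

namespace Pool.Agent.Results.MP_e996df_nt.PureCubicThreePart

open NumberField IsDedekindDomain WeierstrassCurve WithZero
open Pool.Agent.TH841.NF.D (Sha)
open Pool.Agent.Y696 (NonsingRed)
open scoped Classical

/-! ### The data of `E / k` -/

section field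

variable (k : Type) [Field k] [NumberField k]

/-- The curve `E : y² + y = x³` over `k`, with the differential `ω = dx / (2 y + 1)`. -/
def curve (k : Type) [Field k] : WeierstrassCurve k := ⟨0, 0, 1, 0, 0⟩

/-- `n v` and `c v` are the local data of `E` at the finite places `v` of `k`.  A change of variables
over `k_v` with the scaling factor `u` of absolute value `q_v ^ (-n v)` gives a minimal equation, so that
`|ω / ω_min|_v = q_v ^ (n v)`, and `c v` is the index of the group of the points of nonsingular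
reduction in the group of points over `k_v` of this equation (the Tamagawa number).  All but
finitely many of the `n v` are `0` and of the `c v` are `1`. -/
structure IsLocalData (n : HeightOneSpectrum (𝓞 k) → ℤ) (c : HeightOneSpectrum (𝓞 k) → ℕ) : Prop where
  data : ∀ v : HeightOneSpectrum (𝓞 k), ∃ C : VariableChange (v.adicCompletion k),
    Valued.v ((C.u : (v.adicCompletion k)ˣ) : v.adicCompletion k) = exp (-(n v)) ∧
    IsMinimal (v.adicCompletionIntegers k) (C • (curve k).baseChange (v.adicCompletion k)) ∧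
    ∃ H : AddSubgroup (C • (curve k).baseChange (v.adicCompletion k)).toAffine.Point,
      (∀ P, P ∈ H ↔ NonsingRed Valued.v (C • (curve k).baseChange (v.adicCompletion k)) P) ∧
      H.index = c v
  finite : {v | n v ≠ 0 ∨ c v ≠ 1}.Finite

/-- `Lk` is an entire function equal to `L(E / k, s)` for `Re s > 3 / 2`. -/
def IsL (Lk : ℂ → ℂ) : Prop :=
  Differentiable ℂ Lk ∧
    ∀ s : ℂ, 3 / 2 < s.re →
      LSeriesSummable ((fun n : ℤ => (n : ℂ)) ∘ (curve k).LFunction) s ∧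
        Lk s = (curve k).LSeries s

/-- `Λ` is the lattice of the periods of `ω = dx / (2 y + 1)` on `E` (with `x = ℘` and `2 y + 1 = ℘'` the
equation is `℘'² = 4 ℘³ + 1`), and `Ω` is the least positive real period, the integral of `|ω|` over
`E(ℝ)`, which is connected. -/
def IsPeriods (Λ : PeriodPair) (Ω : ℝ) : Prop :=
  Λ.g₂ = 0 ∧ Λ.g₃ = -1 ∧ 0 < Ω ∧ (Ω : ℂ) ∈ Λ.lattice ∧
    ∀ x : ℝ, 0 < x → (x : ℂ) ∈ Λ.lattice → Ω ≤ x

/-- The product `∏ |ω / ω_min|_v · Ω · 2 A`, the period of `E` over a field `k` with one real and one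
complex place: `A` is the area of a period parallelogram of the lattice `Λ`. -/
noncomputable def period (n : HeightOneSpectrum (𝓞 k) → ℤ) (Λ : PeriodPair) (Ω : ℝ) : ℂ :=
  (∏ᶠ v : HeightOneSpectrum (𝓞 k), ((Nat.card (𝓞 k ⧸ v.asIdeal) : ℂ) ^ (n v))) *
    (Ω * ((2 * |((starRingEnd ℂ) Λ.ω₁ * Λ.ω₂).im| : ℝ) : ℂ))

/-- The `3`-primary part of `Ш(E / k)`. -/
def ShaThree : Type := {x : Sha (curve k) // ∃ n : ℕ, 3 ^ n • x = 0}

/-- **The `3`-part of the conjecture, with the order of `Ш[3^∞]`.**  `L(E / k, s)` is entire, it does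
not vanish at `1`, the group `E(k)` is finite, of order divisible by `3` and not by `9`, `Ш(E / k)[3^∞]`
is killed by `3` and has `9 ^ (t - 1)` elements, and
`L(E / k, 1) = ρ Ω(E / k) ∏ c_v / (√|Δ(k)| |E(k)|²)`, where `ρ ≠ 0` is a rational number with the
`3`-adic valuation of `|Ш(E / k)[3^∞]|`. -/
def ThreePart (t : ℕ) : Prop :=
  Finite (curve k).toAffine.Point ∧ padicValNat 3 (Nat.card (curve k).toAffine.Point) = 1 ∧
  (∀ (n : ℕ) (x : Sha (curve k)), 3 ^ n • x = 0 → 3 • x = 0) ∧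
  Nat.card (ShaThree k) = 9 ^ (t - 1) ∧
  ∃ (Lk : ℂ → ℂ) (n : HeightOneSpectrum (𝓞 k) → ℤ) (c : HeightOneSpectrum (𝓞 k) → ℕ),
    IsL k Lk ∧ Lk 1 ≠ 0 ∧ IsLocalData k n c ∧ (∃ Λ Ω, IsPeriods Λ Ω) ∧
    ∀ (Λ : PeriodPair) (Ω : ℝ), IsPeriods Λ Ω → ∃ ρ : ℚ, ρ ≠ 0 ∧
      Lk 1 = ρ * (period k n Λ Ω * ((∏ᶠ w, c w : ℕ) : ℂ) /
        (((Real.sqrt |(discr k : ℝ)| : ℝ) : ℂ) * (Nat.card (curve k).toAffine.Point : ℂ) ^ 2)) ∧
      padicValRat 3 ρ = padicValNat 3 (Nat.card (ShaThree k))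

/-- `L(E / k, s)` is entire, and `L(E / k, 1) = 9 ^ (t - 1) (a / b) Ω(E / k) ∏ c_v / (√|Δ(k)| 3²)` with
an integer `a` and a natural number `b` prime to `3`, and `3 ∤ a` if and only if `good` holds. -/
def Divisible (t : ℕ) (good : Prop) : Prop :=
  ∃ (Lk : ℂ → ℂ) (n : HeightOneSpectrum (𝓞 k) → ℤ) (c : HeightOneSpectrum (𝓞 k) → ℕ),
    IsL k Lk ∧ IsLocalData k n c ∧ (∃ Λ Ω, IsPeriods Λ Ω) ∧
    ∀ (Λ : PeriodPair) (Ω : ℝ), IsPeriods Λ Ω → ∃ (a : ℤ) (b : ℕ),
      Lk 1 = 9 ^ (t - 1) * (a / b) * (period k n Λ Ω * ((∏ᶠ w, c w : ℕ) : ℂ) /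
        (((Real.sqrt |(discr k : ℝ)| : ℝ) : ℂ) * 3 ^ 2)) ∧
      ¬ 3 ∣ b ∧ (¬ (3 : ℤ) ∣ a ↔ good)

end field

/-! ### The numbers `N` -/

/-- `N` is not zero, not divisible by the cube of a prime, not divisible by `3`, not `±1` modulo `9`,
and divisible by exactly one prime that is `2` modulo `3`. -/
def InClass (N : ℕ) : Prop :=
  N ≠ 0 ∧ (∀ p : ℕ, p.Prime → ¬ p ^ 3 ∣ N) ∧ ¬ 3 ∣ N ∧ N % 9 ≠ 1 ∧ N % 9 ≠ 8 ∧
    ∃ q : ℕ, q.Prime ∧ q % 3 = 2 ∧ q ∣ N ∧ ∀ p : ℕ, p.Prime → p ∣ N → p ≠ q → p % 3 = 1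

/-- In every factorization of `N` in coprime factors `d₀ d₁ d₂` for which `d₁ d₂²`, `d₂ d₀²`,
`d₀ d₁²` are cubes modulo the primes dividing `d₀`, `d₁`, `d₂` respectively, two factors are `1`. -/
def HasNoSplitting (N : ℕ) : Prop :=
  ∀ d : ZMod 3 → ℕ, ∏ c, d c = N → (∀ c c', c ≠ c' → Nat.Coprime (d c) (d c')) →
    (∀ (c : ZMod 3) (p : ℕ), p.Prime → p ∣ d c →
      ∃ x : ℤ, (p : ℤ) ∣ (d (c + 1) : ℤ) * (d (c + 2) : ℤ) ^ 2 - x ^ 3) →
    ∃ c, ∀ c', c' ≠ c → d c' = 1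

/-! ### The proof -/

section proof

open Pool.Agent.Y692.QS (Ei nr)
open Pool.Agent.Y703.CT
open Pool.Agent.Y696.CTK Pool.Agent.Y696.CTE
open Pool.Agent.T2H28.BC

variable {k : Type} [Field k] [NumberField k]

/-- the local data -/
theorem local_ex
    (h1 : ∀ v : HeightOneSpectrum (𝓞 k), (3 : 𝓞 k) ∉ v.asIdeal → LocData (ED (1 : k)) v 0 1)
    (h2 : ∃ v₀ : HeightOneSpectrum (𝓞 k), (∀ v : HeightOneSpectrum (𝓞 k),
      (3 : 𝓞 k) ∈ v.asIdeal ↔ v = v₀) ∧ ∃ c : ℕ, (c = 1 ∨ c = 2 ∨ c = 4) ∧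
      LocData (ED (1 : k)) v₀ 0 c) :
    ∃ (n : HeightOneSpectrum (𝓞 k) → ℤ) (c : HeightOneSpectrum (𝓞 k) → ℕ) (m : ℕ),
      (m = 1 ∨ m = 2 ∨ m = 4) ∧ IsLocalData k n c ∧ ∏ᶠ w, c w = m ∧
      ∀ (Λ : PeriodPair) (Ω : ℝ), period k n Λ Ω =
        Ω * ((2 * |((starRingEnd ℂ) Λ.ω₁ * Λ.ω₂).im| : ℝ) : ℂ) := by
  obtain ⟨v₀, g1, m, hm, g3⟩ := h2
  refine ⟨fun v => 0, fun v => if v = v₀ then m else 1, m, hm, ⟨?_, ?_⟩,
    finprod_nat v₀ m, ?_⟩
  · intro v
    by_cases hv : v = v₀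
    · subst hv
      obtain ⟨C, a1, a2, H, a3, a4⟩ := g3
      exact ⟨C, a1, a2, H, a3, a4.trans (if_pos rfl).symm⟩
    · obtain ⟨C, a1, a2, H, a3, a4⟩ := h1 v fun h => hv ((g1 v).1 h)
      exact ⟨C, a1, a2, H, a3, a4.trans (if_neg hv).symm⟩
  · refine (Set.finite_singleton v₀).subset ?_
    intro v hv
    by_contra hne
    rcases hv with h | h
    · exact h rfl
    · exact h (if_neg hne)
  · intro Λ Ω
    unfold period
    simp only [zpow_zero, _root_.finprod_one, one_mul]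

theorem periods_ex : ∃ Λ Ω, IsPeriods Λ Ω := by
  obtain ⟨⟨Λ, h1, h2⟩, -⟩ := PER 1 1 one_ne_zero (one_pow 3)
  rw [one_pow] at h2
  obtain ⟨Ω, h⟩ := real_ex h1 h2
  exact ⟨Λ, Ω, h1, h2, h⟩

theorem area_ne (Λ : PeriodPair) (h2 : Λ.g₂ = 0) (h3 : Λ.g₃ = -1) :
    ((2 * |((starRingEnd ℂ) Λ.ω₁ * Λ.ω₂).im| : ℝ) : ℂ) ≠ 0 := by
  obtain ⟨-, hall⟩ := PER 1 1 one_ne_zero (one_pow 3)
  obtain ⟨L, Ω, hC, hA⟩ := hall Λ h2 (by rw [h3, one_pow])
  rw [hA, norm_one, one_pow, div_one]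
  have hΩ := norm_ne_zero_iff.2 hC.lat.ne
  have h3 : (Real.sqrt 3 : ℝ) ≠ 0 := by positivity
  exact_mod_cast mul_ne_zero h3 (pow_ne_zero 2 hΩ)

theorem v_small {Γ : Type} [LinearOrderedCommGroupWithZero Γ] {v : Valuation ℂ Γ} (hv : v 3 < 1)
    {m : ℕ} (hm : m = 1 ∨ m = 2 ∨ m = 4) : v (m : ℂ) = 1 := by
  refine v_natp hv ?_
  rcases hm with rfl | rfl | rfl <;> norm_num

theorem val9 (m : ℕ) : ((2 * m : ℕ) : ℤ) = (padicValNat 3 (9 ^ m) : ℤ) := by
  have : (9 : ℕ) ^ m = 3 ^ (2 * m) := by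
    rw [pow_mul]
    norm_num
  rw [this, padicValNat.prime_pow]

/-- both parts for one field -/
theorem one {N : ℕ} (hN : Cls N) (θ : k) (hdeg : Module.finrank ℚ k = 3) (hθ : θ ^ 3 = (N : k)) :
    (NoSplit N → ThreePart k N.primeFactors.card) ∧
      Divisible k N.primeFactors.card (NoSplit N) := by
  obtain ⟨nn, π, e, hdt, hD⟩ := Pool.Agent.Y274.CT.t_exi N hN.1
  have hcnt := Pool.Agent.Y274.CT.t_cnt N hN (Fin nn) π e hdt hD
  have hJ : Nonempty (Fin nn) := by
    rw [Fintype.card_fin] at hcnt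
    have h2 : nn ≠ 0 := by omega
    exact ⟨⟨0, by omega⟩⟩
  have h9 : ¬ (9 : ℤ) ∣ nr (pD π e) - 1 := nr_nine hN hD
  have hks : NoSplit N ↔ Ker π e := by
    constructor
    · intro hs
      exact Pool.Agent.Y405.CT.cri Pool.Agent.Y350.CT.rec N hN hs _ π _ hdt hD
    · intro hk
      by_contra hs
      exact Pool.Agent.Y737.CT.even Pool.Agent.Y350.CT.rec N hN hs _ π _ hdt hD hk
  obtain ⟨hns, K, F, i1, i2, i3, i4, i5, i6, hcyc, hKF, hkF⟩ := Pool.Agent.Y948.CTP.cmp k hdeg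
  obtain ⟨⟨j, hj⟩, -⟩ := Pool.Agent.Y455.CTK.jex K
  obtain ⟨ε, hε, hεD⟩ : ∃ ε : ℤ, (ε = 1 ∨ ε = -1) ∧ (ε : Ei) * (N : Ei) = pD π e := by
    rcases hD with h | h
    · exact ⟨1, Or.inl rfl, by rw [h, Int.cast_one, one_mul]⟩
    · exact ⟨-1, Or.inr rfl, by rw [h, Int.cast_neg, Int.cast_one, neg_one_mul, neg_neg]⟩
  obtain ⟨θ', -, hθ'⟩ := root_int (K := K) (F := F) (D := j (pD π e))
    (θ := (ε : F) * algebraMap k F θ) (by
      rw [mul_pow, ← map_pow, hθ, ← hεD, map_mul, map_intCast, map_natCast, map_natCast]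
      rcases hε with rfl | rfl
      · simp
      · simp
        ring)
  have hne : pD π e ≠ 0 := Pool.Agent.Y153.CTRAM.ne_zero_of hdt
  have hC : Cub j (pD π e) θ' := ⟨hKF, hθ', hne,
    Pool.Agent.R419.CE.ncube (Pool.Agent.R419.CE.cf_pD hdt) (Pool.Agent.R419.CE.nunit hdt)⟩
  have h3N : N % 3 ≠ 0 := fun h => hN.1.2.1 (Nat.dvd_of_mod_eq_zero h)
  obtain ⟨h1, h2⟩ := Pool.Agent.T2H55.BC.t_LOCk k N θ hdeg hθ h3N hN.2.1 hN.2.2.1
  obtain ⟨n, c, m, hm, hloc, hcm, hper⟩ := local_ex h1 h2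
  obtain ⟨Lk, g1, g2, g3⟩ := Pool.Agent.T2H55.BC.t_VALk N hN (Fin nn) π e hdt hD k θ hdeg hθ
  have hL : IsL k Lk := ⟨g1, g2⟩
  have hrat := Pool.Agent.T2H55.BC.t_RATk N hN (Fin nn) π e hdt hD k θ hdeg hθ Lk g1
    fun s hs => (g2 s hs).2
  have hdk : ((Real.sqrt |(discr k : ℝ)| : ℝ) : ℂ) ≠ 0 := by
    have h3 : (discr k : ℝ) ≠ 0 := by exact_mod_cast discr_ne_zero k
    exact Complex.ofReal_ne_zero.2 (Real.sqrt_ne_zero'.2 (abs_pos.2 h3))
  have hm0 : (m : ℂ) ≠ 0 := by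
    rcases hm with rfl | rfl | rfl <;> norm_num
  obtain ⟨B, hB⟩ := Pool.Agent.Y715.T.Fin.exists_over_three
  have hexp : Fintype.card (Fin nn) - 1 = 2 * (N.primeFactors.card - 1) := by omega
  rw [hexp] at g3
  have h99 : ∀ (Γ : Type) [LinearOrderedCommGroupWithZero Γ] (v : Valuation ℂ Γ),
      v ((9 : ℂ) ^ (N.primeFactors.card - 1)) = v ((3 : ℂ) ^ (2 * (N.primeFactors.card - 1))) := by
    intro Γ _ v
    congr 1
    rw [pow_mul]
    norm_num
  refine ⟨fun hs => ?_, Lk, n, c, hL, hloc, periods_ex, ?_⟩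
  · have hk := hks.1 hs
    obtain ⟨-, hfin, h33⟩ := (Pool.Agent.R419.CE.lawE Pool.Agent.Y696.CTK.parts
      Pool.Agent.Y696.CTE.partsE j hdt h9 hKF θ' hθ').rz hk
    obtain ⟨-, hfink, h33k⟩ := (Pool.Agent.R419.CE.law_all hN k θ hdeg hθ).rz hs
    obtain ⟨r, hr, hcard⟩ := pts_k hC hdt hk h9 hfin hfink hkF hns
    have hsha := sha_k Pool.Agent.T2H55.BC.t_LOC3H hC hdt hk h9 hfin h33 hkF hns
    have hsha' : Nat.card (ShaThree k) = 9 ^ (N.primeFactors.card - 1) := by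
      refine Eq.trans hsha ?_
      rw [hexp, pow_mul]
      norm_num
    have hcard' : Nat.card (curve k).toAffine.Point = 3 * r := hcard
    have hr0 : r ≠ 0 := by
      rintro rfl
      exact hr (dvd_zero 3)
    refine ⟨hfink, ?_, h33k, hsha', Lk, n, c, hL, ?_, hloc, periods_ex, ?_⟩
    · rw [hcard', padicValNat.mul (by norm_num) hr0, padicValNat.eq_zero_of_not_dvd hr]
      simp
    · intro h0
      obtain ⟨Λ, Ω, hΛ⟩ := periods_ex
      have h4 := (g3 Λ hΛ.1 hΛ.2.1 Ω hΛ.2.2.1 hΛ.2.2.2.1 hΛ.2.2.2.2 _ B.valuation hB).2.2 hk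
      rw [h0] at h4
      simp only [zero_mul, zero_div, map_zero, map_pow] at h4
      have h5 : B.valuation 3 ≠ 0 := (Valuation.ne_zero_iff _).2 (by norm_num)
      exact pow_ne_zero _ h5 h4.symm
    · intro Λ Ω hΛ
      have hA := area_ne Λ hΛ.1 hΛ.2.1
      have hΩ : (Ω : ℂ) ≠ 0 := by exact_mod_cast hΛ.2.2.1.ne'
      have g4 := fun (Γ : Type) [LinearOrderedCommGroupWithZero Γ] (v : Valuation ℂ Γ)
        (hv : v 3 < 1) => (g3 Λ hΛ.1 hΛ.2.1 Ω hΛ.2.2.1 hΛ.2.2.2.1 hΛ.2.2.2.2 Γ v hv).2.2 hk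
      obtain ⟨q, hq⟩ := hrat Λ hΛ.1 hΛ.2.1 Ω hΛ.2.2.1 hΛ.2.2.2.1 hΛ.2.2.2.2
      rw [hper, hcm, hcard', hsha']
      generalize ((2 * |((starRingEnd ℂ) Λ.ω₁ * Λ.ω₂).im| : ℝ) : ℂ) = A at hA g4 hq ⊢
      have hr0' : (r : ℂ) ≠ 0 := by exact_mod_cast hr0
      have e1 : ((q * 9 * ((r : ℚ) ^ 2 / m) : ℚ) : ℂ) =
          Lk 1 * (Real.sqrt |(discr k : ℝ)| : ℝ) * 3 ^ 2 / (Ω * A) * ((r : ℂ) ^ 2 / m) := by
        push_cast
        rw [← hq]
        field_simp
        ring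
      have h7 : B.valuation ((q * 9 * ((r : ℚ) ^ 2 / m) : ℚ) : ℂ) =
          B.valuation ((9 : ℂ) ^ (N.primeFactors.card - 1)) := by
        have h4 := g4 _ B.valuation hB
        rw [e1, h99, ← h4]
        have h5 : B.valuation (m : ℂ) = 1 := v_small hB hm
        have h6 : B.valuation (r : ℂ) = 1 := v_natp hB hr
        rw [map_mul B.valuation _ ((r : ℂ) ^ 2 / m), map_div₀ B.valuation ((r : ℂ) ^ 2),
          map_pow B.valuation (r : ℂ), h5, h6, one_pow, div_one, mul_one]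
      obtain ⟨h8, h10⟩ := rat_eq hB h7
      refine ⟨q * 9 * ((r : ℚ) ^ 2 / m), h8, ?_, ?_⟩
      · rw [e1]
        push_cast
        field_simp
      · rw [h10, val9]
  · intro Λ Ω hΛ
    have hA := area_ne Λ hΛ.1 hΛ.2.1
    have hΩ : (Ω : ℂ) ≠ 0 := by exact_mod_cast hΛ.2.2.1.ne'
    have g4 := fun (Γ : Type) [LinearOrderedCommGroupWithZero Γ] (v : Valuation ℂ Γ)
      (hv : v 3 < 1) => g3 Λ hΛ.1 hΛ.2.1 Ω hΛ.2.2.1 hΛ.2.2.2.1 hΛ.2.2.2.2 Γ v hv
    obtain ⟨q, hq⟩ := hrat Λ hΛ.1 hΛ.2.1 Ω hΛ.2.2.1 hΛ.2.2.2.1 hΛ.2.2.2.2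
    rw [hper, hcm]
    generalize ((2 * |((starRingEnd ℂ) Λ.ω₁ * Λ.ω₂).im| : ℝ) : ℂ) = A at hA g4 hq ⊢
    have e1 : ((q * 9 / m : ℚ) : ℂ) =
        Lk 1 * (Real.sqrt |(discr k : ℝ)| : ℝ) * 3 ^ 2 / (Ω * A) / m := by
      push_cast
      rw [← hq]
      field_simp
      ring
    obtain ⟨a, b, h6, h7, h8⟩ := rat_frac hB (q := q * 9 / m) (m := N.primeFactors.card - 1)
      (good := Ker π e) (by
        have h4 := g4 _ B.valuation hB
        have h5 : B.valuation (m : ℂ) = 1 := v_small hB hm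
        rw [e1, map_div₀ B.valuation _ (m : ℂ), h5, div_one, h99]
        exact h4)
    rw [hks]
    refine ⟨a, b, ?_, h7, h8⟩
    rw [← h6, e1]
    field_simp

theorem class_iff (N : ℕ) : InClass N ↔ Cls N := by
  unfold InClass Cls Base
  constructor
  · rintro ⟨h1, h2, h3, h4, h5, h6⟩
    exact ⟨⟨h1, h3, h2⟩, h4, h5, h6⟩
  · rintro ⟨⟨h1, h3, h2⟩, h4, h5, h6⟩
    exact ⟨h1, h2, h3, h4, h5, h6⟩

end proof

/-- **Main theorem.**  There are at least `c X / √(log X)` numbers `N ≤ X` in the class.  For each `N` of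
the class there is a field `k = ℚ(θ)`, `θ³ = N`, of degree `3`.  For each such `k`, with `t` the number
of the primes that divide `N`: `L(E / k, s)` is entire,
`L(E / k, 1) = 9 ^ (t - 1) (a / b) Ω(E / k) ∏ c_v / (√|Δ(k)| 3²)` with integers `a`, `b`, `3 ∤ b`, and
`3 ∤ a` exactly if `N` has no splitting; and if `N` has no splitting, the `3`-part of the conjecture
holds for `E / k` (the value is rational, with the predicted `3`-adic valuation), and
`Ш(E / k)[3^∞]` is killed by `3` and has `9 ^ (t - 1)` elements.  The proportion of the `N`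
without a splitting tends to `∏_{i ≥ 1} (1 - 3^{-i})`. -/
theorem result :
    (∃ c : ℝ, 0 < c ∧ ∃ X₀ : ℕ, ∀ X : ℕ, X₀ ≤ X →
      c * X / Real.sqrt (Real.log X) ≤ (((Finset.Icc 1 X).filter fun N => InClass N).card : ℝ)) ∧
    (∀ N : ℕ, InClass N →
      (∃ (k : Type) (_ : Field k) (_ : NumberField k) (θ : k),
        Module.finrank ℚ k = 3 ∧ θ ^ 3 = (N : k)) ∧
      ∀ (k : Type) [Field k] [NumberField k] (θ : k), Module.finrank ℚ k = 3 → θ ^ 3 = (N : k) →
        Divisible k N.primeFactors.card (HasNoSplitting N) ∧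
          (HasNoSplitting N → ThreePart k N.primeFactors.card)) ∧
    Filter.Tendsto (fun X : ℕ =>
      (((Finset.Icc 1 X).filter fun N => InClass N ∧ HasNoSplitting N).card : ℝ) /
        (((Finset.Icc 1 X).filter fun N => InClass N).card : ℝ)) Filter.atTop
      (nhds (∏' i : ℕ, (1 - (1 / 3 : ℝ) ^ (i + 1)))) ∧
    (0.56 : ℝ) < ∏' i : ℕ, (1 - (1 / 3 : ℝ) ^ (i + 1)) := by
  have e1 : ∀ X : ℕ, (Finset.Icc 1 X).filter (fun N => InClass N) =
      (Finset.Icc 1 X).filter fun N => Pool.Agent.Y703.CT.Cls N := fun X =>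
    Finset.filter_congr fun N _ => class_iff N
  have e2 : ∀ X : ℕ, (Finset.Icc 1 X).filter (fun N => InClass N ∧ HasNoSplitting N) =
      (Finset.Icc 1 X).filter fun N => Pool.Agent.Y703.CT.Cls N ∧
        Pool.Agent.Y703.CT.NoSplit N := fun X => Finset.filter_congr fun N _ =>
    and_congr (class_iff N) Iff.rfl
  refine ⟨?_, fun N hN => ?_, ?_, Pool.Agent.Y461.CX.t_C3.2.2.2⟩
  · simp only [e1]
    exact Pool.Agent.R419.CF.low
  · have hC := (class_iff N).1 hN
    refine ⟨Pool.Agent.R419.CE.ex_field hC, fun k _ _ θ hd hθ => ?_⟩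
    exact (one hC θ hd hθ).symm
  · simp only [e1, e2]
    exact Pool.Agent.R419.CF.t_FIN

end Pool.Agent.Results.MP_e996df_nt.PureCubicThreePart
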