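import Pool.Agent.T2H26.CM.Rat
import Pool.Agent.Results.MP_e996df_nt.CyclicCubicThreePart
import Pool.Agent.Results.MP_e996df_nt.PureCubicThreePart

/-!
# The `3`-part of the Birch and Swinnerton-Dyer conjecture over `ℚ(∛N)` and `ℚ(ω, ∛D)` for all the products
# of powers of an infinite sequence of primes, with every matrix of cubic residue symbols

`E` is the curve `y² + y = x³`. Let `F₃` be the field with three elements.

(1) Pure cubic fields. Let `q` be a prime, `2` modulo `3`, `A_ij` (`i ≠ j`) and `d_i` arbitrary elements of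
`F₃`, `c_i` arbitrary classes `1, 4, 7` modulo `9`. There are primes `p_0 < p_1 < ⋯`, `p_i ≡ c_i` modulo
`9`, larger than a given number, and cubic logarithms `χ_i` modulo `p_i` with `χ_i(p_j) = A_ij` and
`χ_i(q) = d_i`, such that for all finite sets `I` and all exponents `f, e_i ∈ {1, 2}` for which
`N = q^f ∏_{i ∈ I} p_i^(e_i)` is not `±1` modulo `9`, and for `k = ℚ(∛N)`: the quotient of `L(E/k, 1)` and
`Ω(E/k) ∏ c_v / (√|Δ(k)| 3²)` is a rational number `9 ^ #I a / b`, `3 ∤ b`, and `3 ∤ a` if and only if the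
matrix `M_ii = f d_i + ∑_{k ≠ i} e_k A_ik`, `M_ij = - e_j A_ij` (`i, j ∈ I`) is invertible. If it is, then `E(k)` is finite, `L(E/k, 1) ≠ 0`, `Ш(E/k)[3^∞]` is killed by `3` and has
`9 ^ #I` elements, and the `3`-part of the conjecture holds for `E / k`.

(2) Cyclic cubic extensions of `K = ℚ(ω)`. Every infinite symmetric matrix over `F₃` is the matrix of the
cubic residue symbols of a sequence of primes `π_0, π_1, …` of `K` of degree one, `1` modulo `3`, with
increasing norms in prescribed classes `1, 4, 7` modulo `9`; for all the finite sets `I` and exponents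
`e_i ∈ {1, 2}` for which the norm of `D = ∏_{i ∈ I} π_i^(e_i)` is not `1` modulo `9` the analogous
statements are true for `F = K(∛D)`, with `9 ^ (#I - 1)` and the condition that the Laplacian of the
weighted graph of the `A_ij`, `i, j ∈ I`, has no kernel but the constants.

(3) In particular, for each prime `q ≡ 2, 5` modulo `9` there are infinitely many primes `p_i ≡ 1` modulo
`9` such that for ALL the numbers `N = q^f ∏_{i ∈ I} p_i^(e_i)` the `3`-part of the conjecture holds for `E`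
over `ℚ(∛N)`, with `#Ш(E/ℚ(∛N))[3^∞] = 9 ^ #I`; and there are infinitely many primes `π_i` such that for
all the `D = ∏_{i ∈ I} π_i^(e_i)`, `0 ∈ I`, the same is true over `K(∛D)` with `9 ^ (#I - 1)`.

The theorems for a single field are `CyclicCubicThreePart` and `PureCubicThreePart` (helper28, helper55).
New: the primes (`Pool/Agent/T2H26/CM`, by the density theorem for `ℚ(ω, ∛π : π ∈ P)` and cubic
reciprocity), and the form of the criterion as a determinant.
-/

set_option autoImplicit false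

open scoped Classical

namespace Pool.Agent.Results.MP_e996df_nt.EveryMatrixThreePart

open NumberField
open Pool.Agent.Results.MP_e996df_nt

/-- `χ` is a cubic logarithm modulo `p`: a homomorphism from the numbers prime to `p` to the field with
three elements, which is zero exactly at the cubes modulo `p`. -/
def IsLog (p : ℕ) (χ : ℕ → ZMod 3) : Prop :=
  (∀ m n : ℕ, ¬ p ∣ m → ¬ p ∣ n → χ (m * n) = χ m + χ n) ∧
  ∀ n : ℕ, ¬ p ∣ n → (χ n = 0 ↔ ∃ x : ℤ, (p : ℤ) ∣ (n : ℤ) - x ^ 3)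

/-- `q^f ∏_{i ∈ I} p_i^(e_i)` -/
def prod (q : ℕ) (p : ℕ → ℕ) (f : ℕ) (e : ℕ → ℕ) (I : Finset ℕ) : ℕ := q ^ f * ∏ i ∈ I, p i ^ e i

/-- The matrix with the entries `f d_i + ∑_{k ≠ i} e_k A_ik` on the diagonal and `- e_j A_ij` off the
diagonal (`i, j ∈ I`). -/
def matrix (A : ℕ → ℕ → ZMod 3) (d : ℕ → ZMod 3) (f : ℕ) (e : ℕ → ℕ) (I : Finset ℕ) :
    Matrix I I (ZMod 3) := fun i j =>
  if (i : ℕ) = j then (f : ZMod 3) * d i + ∑ k ∈ I.erase i, (e k : ZMod 3) * A i k
  else -((e j : ZMod 3) * A i j)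

/-- The exponents are `1` or `2`. -/
def Exponents (f : ℕ) (e : ℕ → ℕ) : Prop := (f = 1 ∨ f = 2) ∧ ∀ i, e i = 1 ∨ e i = 2

/-- For the pure cubic fields `k = ℚ(∛N)`, with `t` the number of the primes that divide `N` (see
`PureCubicThreePart`): the value `L(E/k, 1)` is `9 ^ (t - 1) a / b` times the predicted value without
`Ш`, `3 ∤ b`, and `3 ∤ a` exactly if `good` holds, and then the `3`-part of the conjecture holds and
`#Ш(E/k)[3^∞] = 9 ^ (t - 1)`. -/
def PureCubic (N t : ℕ) (good : Prop) : Prop :=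
  (∃ (k : Type) (_ : Field k) (_ : NumberField k) (θ : k),
    Module.finrank ℚ k = 3 ∧ θ ^ 3 = (N : k)) ∧
  ∀ (k : Type) [Field k] [NumberField k] (θ : k), Module.finrank ℚ k = 3 → θ ^ 3 = (N : k) →
    PureCubicThreePart.Divisible k t good ∧ (good → PureCubicThreePart.ThreePart k t)

section base

variable {K : Type} [Field K] [NumberField K]

/-- For the cyclic cubic extensions `F = K(∛D)`, with `t` the number of the primes that divide `D` (see
`CyclicCubicThreePart`): the value `L(E/F, 1)` is `9 ^ (t - 1) a / b` times the predicted value without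
`Ш`, `3 ∤ b`, and `3 ∤ a` exactly if `good` holds, and then the `3`-part of the conjecture holds and
`#Ш(E/F)[3^∞] = 9 ^ (t - 1)`. -/
def CyclicCubic (D : 𝓞 K) (t : ℕ) (good : Prop) : Prop :=
  (∃ (F : Type) (_ : Field F) (_ : NumberField F) (_ : Algebra K F) (θ : F),
    Module.finrank K F = 3 ∧ θ ^ 3 = algebraMap K F D) ∧
  ∀ (F : Type) [Field F] [NumberField F] [Algebra K F] (θ : F),
    Module.finrank K F = 3 → θ ^ 3 = algebraMap K F D →
    CyclicCubicThreePart.Divisible F t good ∧ (good → CyclicCubicThreePart.ThreePart F t)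

/-- The `π_i` are primes of degree one, `1` modulo `3`, of norm larger than `B` and `1 + 3 c_i` modulo
`9`, with increasing norms, and the cubic residue symbol of `π_j` modulo `π_i` is `ω ^ (A i j)`. -/
def IsSequence (ω : 𝓞 K) (A : ℕ → ℕ → ZMod 3) (c : ℕ → ZMod 3) (B : ℕ) (π : ℕ → 𝓞 K) : Prop :=
  (∀ i, Prime (π i) ∧ (3 : 𝓞 K) ∣ π i - 1 ∧ (Algebra.norm ℤ (π i)).natAbs.Prime ∧
    B < (Algebra.norm ℤ (π i)).natAbs ∧ Algebra.norm ℤ (π i) % 9 = 1 + 3 * ((c i).val : ℤ)) ∧
  (∀ i j, i < j → (Algebra.norm ℤ (π i)).natAbs < (Algebra.norm ℤ (π j)).natAbs) ∧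
  ∀ i j, i ≠ j → π i ∣ π j ^ (((Algebra.norm ℤ (π i)).natAbs - 1) / 3) - ω ^ (A i j).val

end base

/-- The Laplacian of the graph on `I` with the weights `A i j` and the weights `e j` of the vertices has
no kernel but the constants. -/
def Connected (A : ℕ → ℕ → ZMod 3) (e : ℕ → ZMod 3) (I : Finset ℕ) : Prop :=
  ∀ v : ℕ → ZMod 3, (∀ i ∈ I, ∑ j ∈ I, e j * A i j * (v j - v i) = 0) →
    ∀ i ∈ I, ∀ j ∈ I, v i = v j

section rational

open Pool.Agent.T2H26.CM

theorem pure_cubic {q : ℕ} {p : ℕ → ℕ} {A : ℕ → ℕ → ZMod 3} {d : ℕ → ZMod 3} (h : Hyp q p A d)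
    {f : ℕ} {e : ℕ → ℕ} (he : Exponents f e) (I : Finset ℕ) (h1 : prod q p f e I % 9 ≠ 1)
    (h8 : prod q p f e I % 9 ≠ 8) :
    PureCubic (prod q p f e I) (I.card + 1) ((matrix A d f e I).det ≠ 0) := by
  have hcls := h.cls he.1 he.2 I h1 h8
  have hcrit : PureCubicThreePart.HasNoSplitting (prod q p f e I) ↔ (matrix A d f e I).det ≠ 0 :=
    h.crit Pool.Agent.Y333.CX.t_LAM he.1 he.2 I h1 h8
  have hcard : (prod q p f e I).primeFactors.card = I.card + 1 := by
    have e1 : (prod q p f e I).primeFactors = (Finset.insertNone I).image (PP q p) := by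
      have e2 : prod q p f e I = ∏ k ∈ Finset.insertNone I, PP q p k ^ EE f e k :=
        DD_eq q p f e I
      rw [e2]
      exact mem_pf h.PPp (EEp he.1 he.2)
    rw [e1, Finset.card_image_of_injective _ h.PPi, Finset.card_insertNone]
  obtain ⟨g1, g2⟩ := PureCubicThreePart.result.2.1 (prod q p f e I)
    ((PureCubicThreePart.class_iff _).2 hcls)
  refine ⟨g1, fun k _ _ θ hd hθ => ?_⟩
  obtain ⟨g3, g4⟩ := g2 k θ hd hθ
  rw [hcard] at g3 g4
  rw [hcrit] at g4
  rw [propext hcrit] at g3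
  exact ⟨g3, g4⟩

theorem det_diag (f : ℕ) (hf : f = 1 ∨ f = 2) (e : ℕ → ℕ) (I : Finset ℕ) :
    (matrix (fun _ _ => 0) (fun _ => 1) f e I).det ≠ 0 := by
  have h : matrix (fun _ _ => 0) (fun _ => 1) f e I = Matrix.diagonal fun _ => (f : ZMod 3) := by
    ext i j
    unfold matrix
    by_cases hij : i = j
    · subst hij
      simp
    · have : (i : ℕ) ≠ j := fun h => hij (Subtype.ext h)
      rw [if_neg this, Matrix.diagonal_apply_ne _ hij]
      ring
  rw [h, Matrix.det_diagonal, Finset.prod_const]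
  refine pow_ne_zero _ ?_
  rcases hf with rfl | rfl <;> decide

theorem mod_nine {q : ℕ} (hq : q % 9 = 2 ∨ q % 9 = 5) {p : ℕ → ℕ} (hp : ∀ i, p i % 9 = 1)
    {f : ℕ} {e : ℕ → ℕ} (he : Exponents f e) (I : Finset ℕ) :
    prod q p f e I % 9 ≠ 1 ∧ prod q p f e I % 9 ≠ 8 := by
  have h1 : (∏ i ∈ I, p i ^ e i) % 9 = 1 := by
    induction I using Finset.induction_on with
    | empty => simp
    | insert a s ha ih =>
      rw [Finset.prod_insert ha, Nat.mul_mod, ih, Nat.pow_mod, hp a, one_pow]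
      rfl
  unfold prod
  rw [Nat.mul_mod, h1, Nat.pow_mod]
  rcases he.1 with rfl | rfl <;> rcases hq with h | h <;> rw [h] <;> decide

end rational

section cyclic

open Pool.Agent.Y692.QS (Ei nr w)
open Pool.Agent.Y703.CT (Dt pD Ker)
open Pool.Agent.Y715.T.Rec (cs nn)
open Pool.Agent.Y715.T.RecG (Pq)
open Pool.Agent.T2H26.CM (exists_primes nr_star)

variable {K : Type} [Field K] [NumberField K] [IsCyclotomicExtension {3} ℚ K]

theorem cyc {π : ℕ → Ei} {A : ℕ → ℕ → ZMod 3} (hπ : ∀ i, Pq (π i))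
    (hne : ∀ i j, i ≠ j → ¬ π j ∣ π i) (hA : ∀ i j, i ≠ j → cs (π i) (π j) = A i j)
    (j : Ei ≃+* 𝓞 K) (hj : ∀ z : Ei, Algebra.norm ℤ (j z) = nr z) (e : ℕ → ZMod 3)
    (he : ∀ i, e i ≠ 0) (I : Finset ℕ)
    (h9 : ¬ (9 : ℤ) ∣ Algebra.norm ℤ (∏ i ∈ I, j (π i) ^ (e i).val) - 1) :
    CyclicCubic (∏ i ∈ I, j (π i) ^ (e i).val) I.card (Connected A e I) := by
  have hI : I.Nonempty := by
    by_contra h
    rw [Finset.not_nonempty_iff_eq_empty] at h
    subst h
    rw [Finset.prod_empty, map_one, sub_self] at h9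
    exact h9 (dvd_zero _)
  have : Nonempty I := hI.to_subtype
  let π' : I → Ei := fun i => π i
  let e' : I → ZMod 3 := fun i => e i
  have hdt : Dt π' e' := ⟨fun i => hπ i, fun a b hab => hne a b fun h => hab (Subtype.ext h),
    fun i => he i⟩
  have hD : ∏ i ∈ I, j (π i) ^ (e i).val = j (pD π' e') := by
    unfold pD
    rw [map_prod, ← Finset.prod_coe_sort]
    refine Finset.prod_congr rfl fun i _ => ?_
    rw [map_pow]
  rw [hD] at h9 ⊢
  have h9' : ¬ (9 : ℤ) ∣ nr (pD π' e') - 1 := by rw [← hj]; exact h9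
  have hcls : CyclicCubicThreePart.InClass (j (pD π' e')) :=
    (Pool.Agent.R419.KF.clsC_iff j hj _).2
      ⟨Pool.Agent.R419.CE.three_pD hdt, Pool.Agent.R419.CE.cf_pD hdt, h9'⟩
  have htri := Pool.Agent.R419.KF.tri_iff j Pool.Agent.Y696.CTK.parts hdt h9'
  have hker : Ker π' e' ↔ Connected A e I := by
    have key : ∀ (v : ℕ → ZMod 3) (i : I), ∑ k : I, e' k * cs (π' i) (π' k) * (v k - v i) =
        ∑ k ∈ I, e k * A i k * (v k - v i) := by
      intro v i
      rw [← Finset.sum_coe_sort I (fun k => e k * A i k * (v k - v i))]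
      refine Finset.sum_congr rfl fun k _ => ?_
      by_cases hik : (i : ℕ) = k
      · rw [hik, sub_self, mul_zero, mul_zero]
      · rw [← hA i k hik]
    constructor
    · intro hk v hv i hi i' hi'
      exact hk (fun k => v k) (fun i => by rw [key v i]; exact hv i i.2) ⟨i, hi⟩ ⟨i', hi'⟩
    · intro hc v hv i i'
      let v' : ℕ → ZMod 3 := fun k => if hk : k ∈ I then v ⟨k, hk⟩ else 0
      have hv' : ∀ k : I, v' k = v k := fun k => by
        show (if hk : (k : ℕ) ∈ I then v ⟨k, hk⟩ else 0) = v k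
        rw [dif_pos k.2]
      have h1 := hc v' (fun a ha => by
        rw [← key v' ⟨a, ha⟩]
        have h2 := hv ⟨a, ha⟩
        simp only [hv']
        have h3 : v' a = v ⟨a, ha⟩ := hv' ⟨a, ha⟩
        rw [h3]
        exact h2) i i.2 i' i'.2
      rwa [hv', hv'] at h1
  have hprimes : CyclicCubicThreePart.primes (j (pD π' e')) = I.card := by
    rw [← Fintype.card_coe I]
    exact Pool.Agent.T2H28.BC.ncard_primes j hdt
  refine ⟨((CyclicCubicThreePart.result K).2.1 _ hcls).2.1, fun F _ _ _ θ hd hθ => ?_⟩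
  obtain ⟨g1, g2⟩ := CyclicCubicThreePart.main_one hcls hd θ hθ
  have hgood : Pool.Agent.Y696.CTK.Tri (j (pD π' e')) ↔ Connected A e I := htri.trans hker
  rw [hprimes] at g1 g2
  rw [propext hgood] at g2
  rw [hgood] at g1
  exact ⟨g2, g1⟩

theorem cyclic_cubic : ∃ ω : 𝓞 K, ω ^ 2 + ω + 1 = 0 ∧
    ∀ (A : ℕ → ℕ → ZMod 3) (c : ℕ → ZMod 3) (B : ℕ), (∀ i j, A i j = A j i) →
      ∃ π : ℕ → 𝓞 K, IsSequence ω A c B π ∧ ∀ (e : ℕ → ZMod 3) (I : Finset ℕ), (∀ i, e i ≠ 0) →
        ¬ (9 : ℤ) ∣ Algebra.norm ℤ (∏ i ∈ I, π i ^ (e i).val) - 1 →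
        CyclicCubic (∏ i ∈ I, π i ^ (e i).val) I.card (Connected A e I) := by
  obtain ⟨⟨j, hj⟩, -⟩ := Pool.Agent.Y455.CTK.jex K
  refine ⟨j w, ?_, fun A c B hA => ?_⟩
  · have h : (w : Ei) ^ 2 + w + 1 = 0 := by decide
    rw [← map_pow, ← map_add, ← map_one j, ← map_add, h, map_zero]
  obtain ⟨π, h1, h2⟩ := exists_primes ∅ (by simp) (fun i k => A i k) (fun _ _ => 0)
    (fun _ _ => 0) c B
  have hlt : ∀ i k, i < k → (nr (π i)).natAbs < (nr (π k)).natAbs := fun i k h => (h2 i k h).1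
  have hnr : ∀ i k, i ≠ k → nr (π i) ≠ nr (π k) := by
    intro i k hik h
    rcases lt_or_gt_of_ne hik with h' | h'
    · have := hlt i k h'
      rw [h] at this
      exact lt_irrefl _ this
    · have := hlt k i h'
      rw [h] at this
      exact lt_irrefl _ this
  have hcs : ∀ i k, i ≠ k → cs (π i) (π k) = A i k := by
    intro i k hik
    rcases lt_or_gt_of_ne hik with h' | h'
    · rw [Pool.Agent.Y715.T.RecG.cs_comm (h1 k).1 (h1 i).1 (hnr i k hik).symm]
      exact (h2 i k h').2.1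
    · rw [hA i k]
      exact (h2 k i h').2.1
  have hnd : ∀ i k, i ≠ k → ¬ π k ∣ π i := fun i k hik =>
    Pool.Agent.Y715.T.RecG.not_dvd (h1 i).1 (h1 k).1 (hnr i k hik)
  have hpr : ∀ i, Prime (j (π i)) := fun i =>
    (MulEquiv.prime_iff (j : Ei ≃* 𝓞 K)).2 (h1 i).1.prime
  refine ⟨fun i => j (π i), ⟨fun i => ⟨hpr i, ?_, ?_, ?_, ?_⟩, fun i k hik => ?_,
    fun i k hik => ?_⟩, fun e I he h9 => cyc (fun i => (h1 i).1) hnd hcs j hj e he I h9⟩
  · have h3 := map_dvd j (h1 i).1.three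
    rwa [map_sub, map_one, map_ofNat] at h3
  · rw [hj]
    exact (h1 i).2.1
  · rw [hj]
    exact (h1 i).2.2.1
  · rw [hj]
    exact (h1 i).2.2.2.1
  · rw [hj, hj]
    exact hlt i k hik
  · have h3 := Pool.Agent.Y715.T.RecG.cs_spec (h1 i).1.prime (h1 i).1.norm (hnd k i hik.symm)
    rw [hcs i k hik] at h3
    have h4 := map_dvd j h3
    rw [map_sub, map_pow, map_pow] at h4
    rw [hj]
    exact h4

end cyclic

/-- **Main theorem.** -/
theorem result :
    -- pure cubic fields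
    (∀ q : ℕ, q.Prime → q % 3 = 2 → ∀ (A : ℕ → ℕ → ZMod 3) (d c : ℕ → ZMod 3) (B : ℕ),
      ∃ (p : ℕ → ℕ) (χ : ℕ → ℕ → ZMod 3), StrictMono p ∧
        (∀ i, B < p i ∧ (p i).Prime ∧ p i % 9 = 1 + 3 * (c i).val ∧ IsLog (p i) (χ i) ∧
          χ i q = d i) ∧
        (∀ i j, i ≠ j → χ i (p j) = A i j) ∧
        ∀ (f : ℕ) (e : ℕ → ℕ) (I : Finset ℕ), Exponents f e →
          prod q p f e I % 9 ≠ 1 → prod q p f e I % 9 ≠ 8 →
          PureCubic (prod q p f e I) (I.card + 1) ((matrix A d f e I).det ≠ 0)) ∧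
    -- cyclic cubic extensions of the field of the third roots of unity
    (∀ (K : Type) [Field K] [NumberField K] [IsCyclotomicExtension {3} ℚ K],
      ∃ ω : 𝓞 K, ω ^ 2 + ω + 1 = 0 ∧
        ∀ (A : ℕ → ℕ → ZMod 3) (c : ℕ → ZMod 3) (B : ℕ), (∀ i j, A i j = A j i) →
          ∃ π : ℕ → 𝓞 K, IsSequence ω A c B π ∧ ∀ (e : ℕ → ZMod 3) (I : Finset ℕ),
            (∀ i, e i ≠ 0) → ¬ (9 : ℤ) ∣ Algebra.norm ℤ (∏ i ∈ I, π i ^ (e i).val) - 1 →
            CyclicCubic (∏ i ∈ I, π i ^ (e i).val) I.card (Connected A e I)) ∧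
    -- sequences for which the `3`-part of the conjecture holds over all the fields
    (∀ q : ℕ, q.Prime → (q % 9 = 2 ∨ q % 9 = 5) →
      ∃ p : ℕ → ℕ, StrictMono p ∧ (∀ i, (p i).Prime ∧ p i % 9 = 1) ∧
        ∀ (f : ℕ) (e : ℕ → ℕ) (I : Finset ℕ), Exponents f e →
          PureCubic (prod q p f e I) (I.card + 1) True) ∧
    ∀ (K : Type) [Field K] [NumberField K] [IsCyclotomicExtension {3} ℚ K],
      ∃ π : ℕ → 𝓞 K, (∀ i, Prime (π i) ∧ (3 : 𝓞 K) ∣ π i - 1) ∧
        (∀ i j, i < j → (Algebra.norm ℤ (π i)).natAbs < (Algebra.norm ℤ (π j)).natAbs) ∧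
        ∀ (e : ℕ → ZMod 3) (I : Finset ℕ), (∀ i, e i ≠ 0) → 0 ∈ I →
          CyclicCubic (∏ i ∈ I, π i ^ (e i).val) I.card True := by
  have main : ∀ q : ℕ, q.Prime → q % 3 = 2 → ∀ (A : ℕ → ℕ → ZMod 3) (d c : ℕ → ZMod 3) (B : ℕ),
      ∃ (p : ℕ → ℕ) (χ : ℕ → ℕ → ZMod 3), StrictMono p ∧
        (∀ i, B < p i ∧ (p i).Prime ∧ p i % 9 = 1 + 3 * (c i).val ∧ IsLog (p i) (χ i) ∧
          χ i q = d i) ∧
        (∀ i j, i ≠ j → χ i (p j) = A i j) ∧
        ∀ (f : ℕ) (e : ℕ → ℕ) (I : Finset ℕ), Exponents f e →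
          prod q p f e I % 9 ≠ 1 → prod q p f e I % 9 ≠ 8 →
          PureCubic (prod q p f e I) (I.card + 1) ((matrix A d f e I).det ≠ 0) := by
    intro q hq hq3 A d c B
    obtain ⟨p, χ, h1, h2, h3, h4, h5, h6, h7⟩ :=
      Pool.Agent.T2H26.CM.exists_rat Pool.Agent.Y333.CX.t_LAM hq hq3 A d c B
    exact ⟨p, χ, h1, fun i => ⟨h2 i, (h7.hp i).1, h3 i, h4 i, h5 i⟩, h6,
      fun f e I he h1 h8 => pure_cubic h7 he I h1 h8⟩
  refine ⟨main, fun K _ _ _ => cyclic_cubic, fun q hq hq9 => ?_, fun K _ _ _ => ?_⟩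
  · obtain ⟨p, χ, h1, h2, -, h4⟩ := main q hq (by omega) (fun _ _ => 0) (fun _ => 1) (fun _ => 0) 0
    have hp : ∀ i, p i % 9 = 1 := fun i => by
      have := (h2 i).2.2.1
      simpa using this
    refine ⟨p, h1, fun i => ⟨(h2 i).2.1, hp i⟩, fun f e I he => ?_⟩
    obtain ⟨h5, h6⟩ := mod_nine hq9 hp he I
    have h7 := h4 f e I he h5 h6
    rwa [eq_true (det_diag f he.1 e I)] at h7
  · obtain ⟨ω, -, h⟩ := cyclic_cubic (K := K)
    obtain ⟨π, h1, h2⟩ := h (fun i k => if i = 0 ∨ k = 0 then 1 else 0)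
      (fun i => if i = 0 then 1 else 0) 0 (fun i k => by simp only [or_comm])
    refine ⟨π, fun i => ⟨(h1.1 i).1, (h1.1 i).2.1⟩, h1.2.1, fun e I he h0 => ?_⟩
    have h9 : ¬ (9 : ℤ) ∣ Algebra.norm ℤ (∏ i ∈ I, π i ^ (e i).val) - 1 := by
      have hm : ∀ J : Finset ℕ, 0 ∉ J →
          Algebra.norm ℤ (∏ i ∈ J, π i ^ (e i).val) % 9 = 1 := by
        intro J hJ
        rw [map_prod, Finset.prod_int_mod]
        have h3 : ∀ i ∈ J, Algebra.norm ℤ (π i ^ (e i).val) % 9 = 1 := by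
          intro i hi
          have h4 := (h1.1 i).2.2.2.2
          beta_reduce at h4
          rw [if_neg (fun h => hJ (by rw [← h]; exact hi)), ZMod.val_zero] at h4
          rw [map_pow]
          have h4' : Algebra.norm ℤ (π i) ≡ 1 [ZMOD 9] := by
            rw [Int.ModEq, h4]
            norm_num
          have h5 := h4'.pow (e i).val
          rw [one_pow] at h5
          exact h5
        rw [Finset.prod_congr rfl h3, Finset.prod_const_one]
        norm_num
      have h5 := hm (I.erase 0) (Finset.notMem_erase 0 I)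
      have h6 : Algebra.norm ℤ (π 0) % 9 = 4 := by
        have h4 := (h1.1 0).2.2.2.2
        beta_reduce at h4
        rw [if_pos rfl] at h4
        rw [h4]
        decide
      rw [← Finset.mul_prod_erase I _ h0, map_mul, map_pow]
      intro hd
      have h7 : (Algebra.norm ℤ (π 0) ^ (e 0).val *
          Algebra.norm ℤ (∏ i ∈ I.erase 0, π i ^ (e i).val)) % 9 = 1 := by omega
      have h6' : Algebra.norm ℤ (π 0) ^ (e 0).val % 9 = (4 : ℤ) ^ (e 0).val % 9 := by
        have h4' : Algebra.norm ℤ (π 0) ≡ 4 [ZMOD 9] := by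
          rw [Int.ModEq, h6]
          norm_num
        exact h4'.pow (e 0).val
      rw [Int.mul_emod, h5, h6'] at h7
      have h8 : ∀ x : ZMod 3, x ≠ 0 → ¬ ((4 : ℤ) ^ x.val % 9 * 1 % 9 = 1) := by decide
      exact h8 _ (he 0) h7
    have h10 := h2 e I he h9
    have hc : Connected (fun i k => if i = 0 ∨ k = 0 then 1 else 0) e I := by
      intro v hv
      have key : ∀ i ∈ I, v i = v 0 := by
        intro i hi
        by_cases hi0 : i = 0
        · rw [hi0]
        have h3 := hv i hi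
        beta_reduce at h3
        rw [Finset.sum_eq_single_of_mem 0 h0] at h3
        · rw [if_pos (Or.inr rfl), mul_one] at h3
          have h4 := (mul_eq_zero.1 h3).resolve_left (he 0)
          exact (sub_eq_zero.1 h4).symm
        · intro k _ hk
          rw [if_neg (by simp [hi0, hk])]
          ring
      intro i hi k hk
      rw [key i hi, key k hk]
    rwa [eq_true hc] at h10

end Pool.Agent.Results.MP_e996df_nt.EveryMatrixThreePart
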