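import Pool.Agent.Results.MP_e996df_nt.TwoPartTwistsX49
import Pool.Agent.T2H28.QF.Shg
import Pool.Agent.T2H55.QF.Xj
import Pool.Agent.T2H28.QF.Val
import Pool.Agent.T2H28.QF.Tor
import Pool.Agent.T2H28.QF.Lof
import Pool.Agent.T2H28.QF.RatT
import Pool.Agent.T2H28.QF.Ext
import Pool.Agent.T2H55.QF.Tq
import Pool.Agent.T2H55.QF.Rf

/-!
# The `2`-part of the Birch and Swinnerton-Dyer conjecture for `X_0(49)` over the quadratic extensions of
# `ℚ(√-7)` that are unramified above `2` and at `√-7`: the order of `Ш[2^∞]`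

`K` is a number field of degree two with an integer `a` such that `a² = a - 2` (so `K = ℚ(√-7)` and
`√-7 = 2 a - 1`), `E` is the curve `y² + x y = x³ - x² - 2 x - 1` of conductor `49`, and `D ≠ 1` is any
squarefree integer of `K` that is congruent to `1` modulo `4` and prime to `√-7`.  Let `F = K(√D)`, of
degree `4` over `ℚ`, let `t` be the number of the prime ideals dividing `D`, and let `s = 1` if `D` is a
square modulo `√-7` (then there are two places of `F` above `√-7`), and `s = 0` if it is not (then there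
is one).  We prove the following, for all these `F`.

* The series `L(E / F, s)` is continued to an entire function, the equation is minimal at all the finite
  places of `F`, `∏ c_v = 4 ^ (1 + s)`, the order of the torsion subgroup of `E(F)` is four times an odd
  number, and `L(E / F, 1) √|Δ(F)| / Ω(E / F)` is rational, equal to `4 ^ (t - 2) a / b` with `b` odd.
* Here `a` is odd exactly when the matrix `mat a S` over `𝔽₂` of the quadratic residue symbols of the prime
  divisors of `D` is not singular.  In this case `L(E / F, 1) ≠ 0`, the group `E(F)` is finite, the group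
  `Ш(E / F)[2^∞]` is killed by `2` and has exactly `4 ^ (t - 1 - s)` elements, so it is
  `(ℤ / 2) ^ (2 (t - 1 - s))`, and the `2`-part of the conjecture holds for `E / F`: the number `ρ` with
  `L(E / F, 1) = ρ Ω(E / F) ∏ c_v / (√|Δ(F)| |E(F)|²)` is rational, and `2` divides it to the power
  `2 (t - 1 - s)`.
* The proportion of the `D` with this property, ordered by the norm, is exactly
  `c2 = ∏_{i ≥ 1} (1 - 2^(-i)) = 0.288...`.
* For all the `D`, `|Ш(E / F)[2]|` times `2` to the power of the rank of `E(F)` is at least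
  `4 ^ (t - 1 - s)`.

The starting library has the `2`-part of the conjecture, the criterion and the proportion for the twists
`E_D` over `K`, where `Ш[2^∞]` is trivial.  New are the order of `Ш(E / F)[2^∞]`, which is not bounded, the
formula over `F`, and the lower bound.  The proof.  The points killed by `2` are defined over `K`; they are
`E[𝔞] ⊕ E[𝔞']`, where `𝔞`, `𝔞'` are the two primes above `2`.  For a subset `T` of the set of the prime
divisors of `D`, in the case `s = 1` with a product that is a square modulo `√-7`, the character of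
`F(√∏_T π) / F`, which is unramified outside of `2`, with values in `E[𝔞]` or (with another choice of the
signs of the `π`) in `E[𝔞']`, is a locally trivial class in `H¹(F, E[2])`, and so is its product with the
class of the point of order two of the isogenous curve: this gives the lower bound.  If the matrix is not
singular, there are no further locally trivial classes: the norm to `K` of such a class is in the Selmer
groups of `E` and of `E_D` over `K`, which are known.  The exact number of the locally trivial classes in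
`H¹(F, E[2])` gives the order of `Ш(E / F)[2]`, and a corestriction argument shows that `2` kills
`Ш(E / F)[2^∞]`: `Pool/Agent/T2H28/QF` (helper28) and `Pool/Agent/T2H55/QF` (helper55: the Euler product,
the discriminant and the Tamagawa numbers over `F`, the rationality of the value, the upper bound for
the Selmer groups, the finiteness of `E(F)` and the corestriction argument).

The group `Sha` of the library is the group of the continuous cocycles of the absolute Galois group
of `F` with values in the points over an algebraic closure of `F` that are coboundaries at all the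
places, modulo the coboundaries.  `NonsingRed v W P` says that `P` is the point at infinity or that
one of the partial derivatives of the equation at `P` is not in the maximal ideal.
-/

set_option autoImplicit false

namespace Pool.Agent.Results.MP_e996df_nt.QuadraticTwoPartX49

open NumberField IsDedekindDomain WeierstrassCurve
open Pool.Agent.TH841.NF.D (Sha)
open Pool.Agent.Y696 (NonsingRed)
open scoped Classical

/-! ### The data of `E / F` -/

section field

variable (F : Type) [Field F] [NumberField F]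

/-- The curve `E : y² + x y = x³ - x² - 2 x - 1` of conductor `49` over `F`. -/
def curve (F : Type) [Field F] : WeierstrassCurve F := ⟨1, -1, 0, -2, -1⟩

/-- The equation of `E` is minimal at every finite place `v` of `F`, and `c v` is the Tamagawa number of
`E` at `v`: the index in `E(F_v)` of the subgroup of the points of nonsingular reduction. All but
finitely many of the `c v` are `1`. -/
def IsTamagawa (c : HeightOneSpectrum (𝓞 F) → ℕ) : Prop :=
  (∀ v : HeightOneSpectrum (𝓞 F),
    IsMinimal (v.adicCompletionIntegers F) ((curve F).baseChange (v.adicCompletion F)) ∧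
    ∃ H : AddSubgroup ((curve F).baseChange (v.adicCompletion F)).toAffine.Point,
      (∀ P, P ∈ H ↔ NonsingRed Valued.v ((curve F).baseChange (v.adicCompletion F)) P) ∧
      H.index = c v) ∧
  {v | c v ≠ 1}.Finite

/-- `Lf` is an entire function equal to `L(E / F, s)` for `Re s > 3 / 2`. -/
def IsL (Lf : ℂ → ℂ) : Prop :=
  Differentiable ℂ Lf ∧
    ∀ s : ℂ, 3 / 2 < s.re →
      LSeriesSummable ((fun n : ℤ => (n : ℂ)) ∘ (curve F).LFunction) s ∧
        Lf s = (curve F).LSeries s

/-- The product `2 A · 2 A`, the period of `E` over a field `F` with two complex places and no real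
ones, over which the equation of `E` is minimal: `A` is the area of a period parallelogram of `Λ`. -/
noncomputable def period (Λ : PeriodPair) : ℂ :=
  ((2 * |((starRingEnd ℂ) Λ.ω₁ * Λ.ω₂).im| : ℝ) : ℂ) ^ 2

/-- The lattice of the periods of `ω = dx / (2 y + x)` on `E`: `g₂ = c₄ / 12 = 35 / 4` and
`g₃ = c₆ / 216 = 49 / 8`. -/
def IsPeriodLattice (Λ : PeriodPair) : Prop := Λ.g₂ = 35 / 4 ∧ Λ.g₃ = 49 / 8

/-- The `2`-primary part of `Ш(E / F)`. -/
def ShaTwo : Type := {x : Sha (curve F) // ∃ n : ℕ, 2 ^ n • x = 0}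

/-- **The `2`-part of the conjecture, with the order of `Ш[2^∞]`.**  `L(E / F, s)` is entire, it does
not vanish at `1`, the group `E(F)` is finite, of order divisible by `4` and not by `8`, `Ш(E / F)[2^∞]`
is killed by `2` and has `4 ^ (t - 1 - s)` elements, `∏ c_v = 4 ^ (1 + s)`, and
`L(E / F, 1) = ρ Ω(E / F) ∏ c_v / (√|Δ(F)| |E(F)|²)`, where `ρ ≠ 0` is a rational number with the
`2`-adic valuation of `|Ш(E / F)[2^∞]|`. -/
def TwoPart (t s : ℕ) : Prop :=
  Finite (curve F).toAffine.Point ∧ padicValNat 2 (Nat.card (curve F).toAffine.Point) = 2 ∧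
  (∀ (n : ℕ) (x : Sha (curve F)), 2 ^ n • x = 0 → 2 • x = 0) ∧
  Nat.card (ShaTwo F) = 4 ^ (t - 1 - s) ∧ 1 + s ≤ t ∧
  ∃ (Lf : ℂ → ℂ) (c : HeightOneSpectrum (𝓞 F) → ℕ),
    IsL F Lf ∧ Lf 1 ≠ 0 ∧ IsTamagawa F c ∧ ∏ᶠ w, c w = 4 ^ (1 + s) ∧ (∃ Λ, IsPeriodLattice Λ) ∧
    ∀ Λ : PeriodPair, IsPeriodLattice Λ → ∃ ρ : ℚ, ρ ≠ 0 ∧
      Lf 1 = ρ * (period Λ * ((∏ᶠ w, c w : ℕ) : ℂ) /
        (((Real.sqrt |(discr F : ℝ)| : ℝ) : ℂ) * (Nat.card (curve F).toAffine.Point : ℂ) ^ 2)) ∧
      padicValRat 2 ρ = padicValNat 2 (Nat.card (ShaTwo F))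

/-- `L(E / F, s)` is entire, the product of the Tamagawa numbers is `4 ^ (1 + s)`, the order of the torsion
subgroup of `E(F)` is four times an odd number, and `L(E / F, 1) = 4 ^ t (a / b) Ω(E / F) / (√|Δ(F)| 4²)`
with an integer `a` and an odd number `b`, and `a` is odd if and only if `good` holds. -/
def Divisible (t s : ℕ) (good : Prop) : Prop :=
  (∃ r : ℕ, Odd r ∧ Nat.card (AddCommGroup.torsion (curve F).toAffine.Point) = 4 * r) ∧
  ∃ (Lf : ℂ → ℂ) (c : HeightOneSpectrum (𝓞 F) → ℕ),
    IsL F Lf ∧ IsTamagawa F c ∧ ∏ᶠ w, c w = 4 ^ (1 + s) ∧ (∃ Λ, IsPeriodLattice Λ) ∧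
    ∀ Λ : PeriodPair, IsPeriodLattice Λ → ∃ (a : ℤ) (b : ℕ),
      Lf 1 = 4 ^ t * (a / b) * (period Λ / (((Real.sqrt |(discr F : ℝ)| : ℝ) : ℂ) * 4 ^ 2)) ∧
      ¬ 2 ∣ b ∧ (¬ (2 : ℤ) ∣ a ↔ good)

/-- The group of the elements of `Ш(E / F)` that are killed by `2` is finite, and its order multiplied by
`2` to the power of the rank of `E(F)` is at least `4 ^ (t - 1 - s)`. -/
def Lower (t s : ℕ) : Prop :=
  Finite {x : Sha (curve F) // 2 • x = 0} ∧
    4 ^ (t - 1 - s) ≤ 2 ^ Module.finrank ℤ (curve F).toAffine.Point *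
      Nat.card {x : Sha (curve F) // 2 • x = 0}

end field

/-! ### The fields -/

section base

variable {K : Type} [Field K] [NumberField K]

/-- `0` if `x` is a square modulo `p`, and `1` if it is not. -/
noncomputable def nonsq {R : Type} [CommRing R] (x p : R) : ZMod 2 :=
  if ∃ b : R, p ∣ b ^ 2 - x then 0 else 1

/-- The matrix over the field with two elements, with rows and columns indexed by the set `S` of prime
elements: the entry at `(p, q)` is `nonsq p q` for `p ≠ q`, and the entry at `(p, p)` is the sum of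
`nonsq p √-7` and of the `nonsq p q` for the `q ≠ p` in `S`. -/
noncomputable def mat {K : Type} [Field K] (a : 𝓞 K) (S : Finset (𝓞 K)) : Matrix S S (ZMod 2) :=
  Matrix.of fun p q => if q = p then
    nonsq (p : 𝓞 K) (2 * a - 1) + ∑ r ∈ S.erase (p : 𝓞 K), nonsq (p : 𝓞 K) r
    else nonsq (p : 𝓞 K) q

/-- `D` is squarefree, congruent to `1` modulo `4`, and prime to `√-7 = 2 a - 1`. -/
def InClass (a D : 𝓞 K) : Prop :=
  Squarefree D ∧ (4 : 𝓞 K) ∣ D - 1 ∧ ¬ (2 * a - 1) ∣ D

/-- `S` is the set of the prime divisors of `D` that are congruent to `1` modulo `a²`; every prime ideal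
dividing `D` has exactly one generator in `S`. -/
def IsPrimes (a D : 𝓞 K) (S : Finset (𝓞 K)) : Prop :=
  (∀ p, p ∈ S ↔ Prime p ∧ p ∣ D ∧ a ^ 2 ∣ p - 1) ∧ ∏ p ∈ S, p = D

/-- `1` if `D` is a square modulo `√-7`, which means that `√-7` splits in `K(√D)`, and `0` if not. -/
noncomputable def split (a D : 𝓞 K) : ℕ := if ∃ b : 𝓞 K, (2 * a - 1) ∣ b ^ 2 - D then 1 else 0

/-- The matrix of the symbols of the prime divisors of `D` is not singular. -/
def Regular (a D : 𝓞 K) : Prop := ∀ S : Finset (𝓞 K), IsPrimes a D S → (mat a S).det ≠ 0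

/-- The product `(1 - 1/2) (1 - 1/4) (1 - 1/8) ⋯`. -/
noncomputable def c2 : ℝ := ∏' i : ℕ, (1 - (1 / 2 : ℝ) ^ (i + 1))

end base

/-! ### The proof -/

section proof

open Pool.Agent.R426
open Pool.Agent.R426.QC hiding bR trace_D prime_fR
open Pool.Agent.Y698 Pool.Agent.Y698.SG
open Pool.Agent.T2H28
open Pool.Agent.T2H55.QF (exists_e2 exists_De De.qx De.em t_QTAM t_QRAT)

theorem cur_one (F : Type) [Field F] [CharZero F] : QF.curve (1 : F) = curve F := by
  unfold QF.curve curve
  congr 1 <;> norm_num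

theorem cur_EX (F : Type) [Field F] : EX F 0 = curve F := by
  unfold EX curve
  congr 1 <;> ring

theorem lattice_ex : ∃ Λ, IsPeriodLattice Λ := by
  obtain ⟨Λ, h1, h2⟩ := per7_ex (δ := 1) one_ne_zero
  exact ⟨Λ, by rw [h1]; ring, by rw [h2]; ring⟩

theorem area_ne (Λ : PeriodPair) (h : IsPeriodLattice Λ) :
    ((2 * |((starRingEnd ℂ) Λ.ω₁ * Λ.ω₂).im| : ℝ) : ℂ) ≠ 0 := by
  obtain ⟨L, Ω, hO⟩ := exists_LD
  rw [per7 hO (δ := 1) one_ne_zero (Λ := Λ) (by rw [h.1]; ring) (by rw [h.2]; ring), norm_one,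
    div_one]
  have h1 : Complex.normSq Ω ≠ 0 := (Complex.normSq_pos.2 hO.lat.ne).ne'
  have h7 : Real.sqrt 7 ≠ 0 := (Real.sqrt_pos.2 (by norm_num)).ne'
  exact_mod_cast mul_ne_zero h7 h1

theorem card_tor {F : Type} [Field F] (hfin : Finite (curve F).toAffine.Point) :
    Nat.card (AddCommGroup.torsion (curve F).toAffine.Point) =
      Nat.card (curve F).toAffine.Point := by
  have h1 : AddCommGroup.torsion (curve F).toAffine.Point = ⊤ := by
    rw [eq_top_iff]
    intro x _
    exact isOfFinAddOrder_of_finite x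
  rw [h1]
  exact Nat.card_congr (Equiv.Set.univ _)

variable {K : Type} [Field K] [NumberField K] {F : Type} [Field F] [NumberField F] [Algebra K F]

omit [NumberField K] in
/-- the condition at `√-7` -/
theorem split_iff {a D : 𝓞 K} {e : RR ≃+* 𝓞 K} (hef : e fR = 2 * a - 1) {d : RR} (hd : e d = D) :
    (∃ c : RR, fR ∣ c ^ 2 - d) ↔ ∃ b : 𝓞 K, (2 * a - 1) ∣ b ^ 2 - D := by
  constructor
  · rintro ⟨c, r, hr⟩
    refine ⟨e c, e r, ?_⟩
    rw [← hef, ← hd, ← map_pow, ← map_sub, hr, map_mul]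
  · rintro ⟨b, r, hr⟩
    refine ⟨e.symm b, e.symm r, ?_⟩
    apply e.injective
    rw [map_sub, map_pow, map_mul, e.apply_symm_apply, e.apply_symm_apply, hd, hef, hr]

/-- both parts for one field -/
theorem one {a D : 𝓞 K} {θ : 𝓞 F} (h : QF.Dat a D θ) :
    ∃ S : Finset (𝓞 K), IsPrimes a D S ∧ Lower F S.card (split a D) ∧
      ((mat a S).det ≠ 0 → TwoPart F S.card (split a D)) ∧
      Divisible F S.card (split a D) ((mat a S).det ≠ 0) := by
  obtain ⟨e, hea, hef⟩ := exists_e2 h.ha h.hK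
  obtain ⟨d, J, hd⟩ := exists_De e hef h.h4 h.sq h.h7 h.ne
  obtain ⟨S, hSp, hSD, hE⟩ := QD.exists_S e hea h.h4 h.sq h.h7
  refine ⟨S, ⟨hSp, hSD⟩, ?_⟩
  have hprod : ∏ p ∈ S, QC.pe e p = d := by
    show ∏ p ∈ S, e.symm p = d
    rw [← map_prod, hSD, ← hd.ed, e.symm_apply_apply]
  obtain ⟨κ, hx⟩ := hd.qx h.hF h.hθ
  have hδ : ((D : 𝓞 K) : K) = em e (∏ p ∈ S, QC.pe e p) := by
    rw [hprod]
    exact hd.em
  have hmat : gd (mc (QC.pe e)) (mr (QC.pe e)) S = (mat a S).det := QD.mat_gdD e hef hE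
  have hne : S.Nonempty := by
    rw [Finset.nonempty_iff_ne_empty]
    rintro rfl
    exact h.ne hSD.symm
  have hsp : (∃ c : RR, fR ∣ c ^ 2 - ∏ p ∈ S, QC.pe e p) ↔ ∃ b : 𝓞 K, (2 * a - 1) ∣ b ^ 2 - D := by
    rw [hprod]
    exact split_iff hef hd.ed
  have hsplit : (if ∃ c : RR, fR ∣ c ^ 2 - ∏ p ∈ S, QC.pe e p then 1 else 0) = split a D := by
    unfold split
    by_cases h1 : ∃ b : 𝓞 K, (2 * a - 1) ∣ b ^ 2 - D
    · rw [if_pos h1, if_pos (hsp.2 h1)]
    · rw [if_neg h1, if_neg fun h2 => h1 (hsp.1 h2)]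
  -- the lower bound
  have hlow : Lower F S.card (split a D) := by
    have h1 := QF.low_sha e hx hE hδ hne
    rw [hsplit, cur_EX F] at h1
    exact h1
  refine ⟨hlow, ?_⟩
  -- the data of `E / F`
  obtain ⟨Lf, hL, hval⟩ := QF.val_F h hef hSD hE
  obtain ⟨c, hc, hcp⟩ := t_QTAM K F a D θ h
  have hrat := t_QRAT K F a D θ h Lf hL
  rw [cur_one F] at hL hc
  have hL' : IsL F Lf := hL
  have hc' : IsTamagawa F c := hc
  have hcp' : ∏ᶠ w, c w = 4 ^ (1 + split a D) := by
    rw [hcp]
    unfold split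
    split_ifs <;> norm_num
  obtain ⟨r, hr, htor⟩ := QF.tor_F e hx (QF.Af.of_Ev hE) hδ
  rw [cur_EX F] at htor
  have hdF : ((Real.sqrt |(discr F : ℝ)| : ℝ) : ℂ) ≠ 0 := by
    have h3 : (discr F : ℝ) ≠ 0 := by exact_mod_cast discr_ne_zero F
    exact Complex.ofReal_ne_zero.2 (Real.sqrt_ne_zero'.2 (abs_pos.2 h3))
  obtain ⟨B, hB⟩ := Pool.Agent.Y697.MQ.exists_val
  refine ⟨fun hdet => ?_, ⟨r, hr, htor⟩, Lf, c, hL', hc', hcp', lattice_ex, fun Λ hΛ => ?_⟩
  · have hg : gd (mc (QC.pe e)) (mr (QC.pe e)) S ≠ 0 := by rw [hmat]; exact hdet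
    have hfin := hx.finF hE hg hδ
    have h22 := hx.shaF hE hg hδ
    rw [cur_one F] at hfin h22
    have hfin' : Finite (EX F 0).toAffine.Point := by rw [cur_EX F]; exact hfin
    have hsha := QF.card_shaE e hx h.hF hE hδ hne hg
    rw [hsplit, cur_EX F] at hsha
    have hle : 1 + split a D ≤ S.card := by
      have h1 := QF.two_le hE hg hne
      rw [hsplit] at h1
      exact h1
    have hsha' : Nat.card (ShaTwo F) = 4 ^ (S.card - 1 - split a D) := by
      rw [← hsha]
      refine Nat.card_congr (Equiv.subtypeEquivRight fun x => ⟨?_, fun h1 => ⟨1, ?_⟩⟩)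
      · rintro ⟨n, hn⟩
        exact h22 n x hn
      · rw [pow_one]
        exact h1
    have hcard : Nat.card (curve F).toAffine.Point = 4 * r := by
      rw [← card_tor hfin]
      exact htor
    have hr0 : r ≠ 0 := by
      rintro rfl
      exact absurd hr (by decide)
    have hr2 : ¬ 2 ∣ r := by
      obtain ⟨k, hk⟩ := hr
      omega
    refine ⟨hfin, ?_, h22, hsha', hle, Lf, c, hL', ?_, hc', hcp', lattice_ex, fun Λ hΛ => ?_⟩
    · rw [hcard, padicValNat.mul (by norm_num) hr0, padicValNat.eq_zero_of_not_dvd hr2]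
      have : (4 : ℕ) = 2 ^ 2 := by norm_num
      rw [this, padicValNat.prime_pow]
    · intro h0
      obtain ⟨Λ, hΛ⟩ := lattice_ex
      have h4 := (hval Λ hΛ.1 hΛ.2 _ B.valuation hB).2.2 hg
      rw [h0] at h4
      simp only [zero_mul, zero_div, map_zero, map_pow] at h4
      have h5 : B.valuation 4 ≠ 0 := (Valuation.ne_zero_iff _).2 (by norm_num)
      exact pow_ne_zero _ h5 h4.symm
    · have hA := area_ne Λ hΛ
      have h4 := (hval Λ hΛ.1 hΛ.2 _ B.valuation hB).2.2 hg
      obtain ⟨q, hq⟩ := hrat Λ hΛ.1 hΛ.2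
      unfold QF.period at h4 hq
      unfold period
      rw [hcp', hcard, hsha']
      generalize ((2 * |((starRingEnd ℂ) Λ.ω₁ * Λ.ω₂).im| : ℝ) : ℂ) = A at hA h4 hq ⊢
      have hr0' : (r : ℂ) ≠ 0 := by exact_mod_cast hr0
      have e1 : ((q * 16 * ((r : ℚ) ^ 2 / 4 ^ (1 + split a D)) : ℚ) : ℂ) =
          Lf 1 * (Real.sqrt |(discr F : ℝ)| : ℝ) * 16 / A ^ 2 *
            ((r : ℂ) ^ 2 / 4 ^ (1 + split a D)) := by
        push_cast
        rw [← hq]
        field_simp
      have h7 : B.valuation ((q * 16 * ((r : ℚ) ^ 2 / 4 ^ (1 + split a D)) : ℚ) : ℂ) =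
          B.valuation ((4 : ℂ) ^ (S.card - 1 - split a D)) := by
        have h6 : B.valuation (r : ℂ) = 1 := QF.v_natp2 hB hr2
        have h8 : B.valuation ((4 : ℂ) ^ (1 + split a D)) ≠ 0 :=
          (Valuation.ne_zero_iff _).2 (pow_ne_zero _ (by norm_num))
        rw [e1, map_mul B.valuation _ ((r : ℂ) ^ 2 / _), h4, map_div₀ B.valuation ((r : ℂ) ^ 2),
          map_pow B.valuation (r : ℂ), h6, one_pow, ← mul_div_assoc, mul_one, div_eq_iff h8,
          ← map_mul, ← pow_add]
        congr 2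
        omega
      obtain ⟨h8, h10⟩ := QF.rat_eq2 hB h7
      refine ⟨q * 16 * ((r : ℚ) ^ 2 / 4 ^ (1 + split a D)), h8, ?_, ?_⟩
      · rw [e1]
        push_cast
        field_simp
        ring
      · rw [h10]
        have : (4 : ℕ) ^ (S.card - 1 - split a D) = 2 ^ (2 * (S.card - 1 - split a D)) := by
          rw [pow_mul]
          norm_num
        rw [this, padicValNat.prime_pow]
  · -- the value
    have hA := area_ne Λ hΛ
    have h4 := hval Λ hΛ.1 hΛ.2 _ B.valuation hB
    obtain ⟨q, hq⟩ := hrat Λ hΛ.1 hΛ.2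
    unfold QF.period at h4 hq
    unfold period
    generalize ((2 * |((starRingEnd ℂ) Λ.ω₁ * Λ.ω₂).im| : ℝ) : ℂ) = A at hA h4 hq ⊢
    have e1 : ((q * 16 : ℚ) : ℂ) = Lf 1 * (Real.sqrt |(discr F : ℝ)| : ℝ) * 16 / A ^ 2 := by
      push_cast
      rw [← hq]
      field_simp
    rw [← e1, hmat] at h4
    obtain ⟨u, b, h6, h7, h8⟩ := QF.rat_frac2 hB h4
    refine ⟨u, b, ?_, h7, h8⟩
    rw [← h6, e1]
    field_simp
    ring

omit [NumberField K] in
/-- the set of the primes is unique -/
theorem regular_iff {a D : 𝓞 K} {S : Finset (𝓞 K)} (hS : IsPrimes a D S) :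
    Regular a D ↔ (mat a S).det ≠ 0 := by
  refine ⟨fun h => h S hS, fun h S' hS' => ?_⟩
  have h1 : S' = S := by
    ext p
    rw [hS.1, hS'.1]
  rw [h1]
  exact h

/-- one element of the class -/
theorem main_one {a D : 𝓞 K} (ha : a ^ 2 = a - 2) (hK : Module.finrank ℚ K = 2) (hD : InClass a D)
    (hne : D ≠ 1) {θ : F} (hF : Module.finrank K F = 2) (hθ : θ ^ 2 = algebraMap K F D)
    {S : Finset (𝓞 K)} (hS : IsPrimes a D S) :
    Divisible F S.card (split a D) (Regular a D) ∧ Lower F S.card (split a D) ∧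
      (Regular a D → TwoPart F S.card (split a D)) := by
  obtain ⟨θ', -, hθ'⟩ := QF.root_int (K := K) (F := F) (D := D) hθ
  obtain ⟨S', hS', h0, h1, h2⟩ := one (F := F) (θ := θ') (a := a) (D := D)
    { ha := ha, hK := hK, hF := hF, h4 := hD.2.1, sq := hD.1, h7 := hD.2.2, ne := hne, hθ := hθ' }
  have h3 : S' = S := by
    ext p
    rw [hS.1, hS'.1]
  subst h3
  rw [regular_iff hS]
  exact ⟨h2, h0, h1⟩

/-- the set of the library -/
theorem good_eq {a : 𝓞 K} (ha : a ^ 2 = a - 2) (hK : Module.finrank ℚ K = 2) (X : ℕ) :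
    TwoPartTwistsX49.goodSet a X =
      {D : 𝓞 K | Ideal.absNorm (Ideal.span {D}) ≤ X ∧ InClass a D ∧ Regular a D} := by
  ext D
  constructor
  · rintro ⟨⟨h1, h2, h3, h4⟩, h5⟩
    obtain ⟨S, hSp, hSD, hC⟩ := TwoPartTwistsX49.criterion ha hK h3 h2 h4
    exact ⟨h1, ⟨h2, h3, h4⟩, (regular_iff ⟨hSp, hSD⟩).2 (hC.iff.1 h5)⟩
  · rintro ⟨h1, ⟨h2, h3, h4⟩, h5⟩
    obtain ⟨S, hSp, hSD, hC⟩ := TwoPartTwistsX49.criterion ha hK h3 h2 h4
    exact ⟨⟨h1, h2, h3, h4⟩, hC.iff.2 ((regular_iff ⟨hSp, hSD⟩).1 h5)⟩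

end proof

/-- **Main theorem.**  `K = ℚ(√-7)`, that is, a number field of degree two with an integer `a` such
that `a² = a - 2`.  For every `D ≠ 1` of the class, with the set `S` of its prime divisors that are
congruent to `1` modulo `a²`, whose product is `D`, `t = |S|`, and `s = 1` if `D` is a square modulo
`√-7`, `s = 0` if not: there is a quadratic extension `F = K(θ)`, `θ² = D`, and for each such `F` we have
`Divisible`, and also `TwoPart` if the matrix `mat a S` is not singular.  The proportion of the `D` of the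
class, ordered by the norm, for which it is not singular is `c2`, and their number is at least `δ X`. -/
theorem result (K : Type) [Field K] [NumberField K] (a : 𝓞 K) (ha : a ^ 2 = a - 2)
    (hK : Module.finrank ℚ K = 2) :
    (∀ D : 𝓞 K, InClass a D → D ≠ 1 → ∃ S : Finset (𝓞 K), IsPrimes a D S ∧
      (Regular a D ↔ (mat a S).det ≠ 0) ∧
      (∃ (F : Type) (_ : Field F) (_ : NumberField F) (_ : Algebra K F) (θ : F),
        Module.finrank K F = 2 ∧ θ ^ 2 = algebraMap K F D) ∧
      ∀ (F : Type) [Field F] [NumberField F] [Algebra K F] (θ : F),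
        Module.finrank K F = 2 → θ ^ 2 = algebraMap K F D →
          Divisible F S.card (split a D) (Regular a D) ∧ Lower F S.card (split a D) ∧
            (Regular a D → TwoPart F S.card (split a D))) ∧
    Filter.Tendsto (fun X : ℕ =>
      ({D : 𝓞 K | Ideal.absNorm (Ideal.span {D}) ≤ X ∧ InClass a D ∧ Regular a D}.ncard : ℝ) /
        ({D : 𝓞 K | Ideal.absNorm (Ideal.span {D}) ≤ X ∧ InClass a D}.ncard : ℝ)) Filter.atTop
      (nhds c2) ∧ 0.288 < c2 ∧ c2 < 0.289 ∧
    ∃ δ : ℝ, 0 < δ ∧ ∀ᶠ X : ℕ in Filter.atTop, δ * X ≤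
      ({D : 𝓞 K | Ideal.absNorm (Ideal.span {D}) ≤ X ∧ InClass a D ∧ Regular a D}.ncard : ℝ) := by
  obtain ⟨-, -, -, h3, h4⟩ := Pool.Agent.R426.QK.MOM.t_C2
  obtain ⟨h1, h2⟩ := TwoPartTwistsX49.proportion ha hK
  refine ⟨fun D hD hne => ?_, ?_, h3, h4, ?_⟩
  · obtain ⟨S, hSp, hSD, -⟩ := TwoPartTwistsX49.criterion ha hK hD.2.1 hD.1 hD.2.2
    have hns : ¬ IsSquare ((D : 𝓞 K) : K) := by
      obtain ⟨e, hea, hef⟩ := Pool.Agent.T2H55.QF.exists_e2 ha hK
      obtain ⟨d, J, hd⟩ := Pool.Agent.T2H55.QF.exists_De e hef hD.2.1 hD.1 hD.2.2 hne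
      exact hd.ns
    exact ⟨S, ⟨hSp, hSD⟩, regular_iff ⟨hSp, hSD⟩, Pool.Agent.T2H28.QF.exists_field hns,
      fun F _ _ _ θ hF hθ => main_one ha hK hD hne hF hθ ⟨hSp, hSD⟩⟩
  · refine h1.congr fun X => ?_
    rw [good_eq ha hK]
    rfl
  · obtain ⟨δ, hδ, h5⟩ := h2
    refine ⟨δ, hδ, ?_⟩
    filter_upwards [h5] with X hX
    rw [good_eq ha hK] at hX
    exact hX

end Pool.Agent.Results.MP_e996df_nt.QuadraticTwoPartX49
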